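import Pool.Agent.MP_13199e_lc.PP.E.Spec

/-! PROJECT PP, block E: shared facts. -/

set_option autoImplicit false

namespace Pool.Agent.PP

open Function

section
variable {Idx E β : Type} [AddCommGroup Idx] {U U' U'' : AddSubgroup Idx} {u : Idx} {m w : ℕ}

theorem flt_add {Y : Type} (hu : u ∈ U) (j : Idx) (F : Set (Idx × Y)) :
    flt U (j + u) F = flt U j F := ob_add hu j _

theorem err_add (enc : E ≃ (Fin w → Bool)) (W : Fin w → Lb Idx E m → V4) (hu : u ∈ U) (j : Idx)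
    (g : (Fin m → E) → E) : err enc W U (j + u) g = err enc W U j g := ob_add hu j _

theorem Sub.trans {a b : ℕ} (h : Sub U U' a) (h' : Sub U' U'' b) : Sub U U'' (a * b) :=
  ⟨h'.1.trans h.1, h.2.trans (mul_assoc a b _ ▸ Nat.mul_le_mul_left a h'.2)⟩

theorem Inv.of_sub {f : Idx → β} (h : Inv U f) {a b : Idx} (e : a - b ∈ U) : f a = f b := by
  rw [← h b _ e, add_sub_cancel]

theorem av_sh (hu : u ∈ U) (j : Idx) (f : Idx → ℝ) :
    av (fun a : U => f (j + u + a)) = av fun a : U => f (j + a) :=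
  (av_congr fun a => by simp [add_assoc]).trans
    (av_equiv (Equiv.addLeft (⟨u, hu⟩ : U)) fun a : U => f (j + a))

/-- The shift of a probability over a subgroup. -/
theorem pr_sh (hu : u ∈ U) (j : Idx) (B : Idx → Prop) :
    pr (fun a : U => B (j + u + a)) = pr fun a : U => B (j + a) := av_sh hu j fun i => ind (B i)

theorem pr_sh' (hu : u ∈ U) (j : Idx) (B : Idx → Prop) :
    pr (fun a : U => B (j + a + u)) = pr fun a : U => B (j + a) := by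
  simpa only [add_right_comm] using pr_sh hu j B

/-- A bound along a system of shifts gives a bound on the subgroup. -/
theorem pr_le_of_sh [Finite Idx] {A : Type} [Finite A] [Nonempty A] (s : A → Idx)
    (hs : ∀ a, s a ∈ U) {B : Idx → Prop} {c : ℝ} (h : ∀ j, pr (fun a => B (j + s a)) ≤ c)
    (j : Idx) : pr (fun a : U => B (j + a)) ≤ c := by
  rw [pr, ← av_av_shift (fun a : U => ind (B (j + a))) fun a => ⟨s a, hs a⟩]
  exact av_le fun a => by simpa only [AddSubgroup.coe_add, ← add_assoc, pr] using h (j + a)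

theorem av_avg [Finite Idx] (h : U' ≤ U) (j : Idx) (f : Idx → ℝ) :
    av (fun u : U => av fun a : U' => f (j + u + a)) = av fun u : U => f (j + u) := by
  rw [← av_av_shift (fun u : U => f (j + u)) fun a : U' => ⟨a, h a.2⟩]
  simp only [AddSubgroup.coe_add, add_assoc]

end

namespace Par

variable {P : Par} {a b : ℕ} {u : P.Idx}

theorem mem_UU : u ∈ P.UU a b ↔ u.sl = 0 ∧ u.ty = 0 ∧ u.cc = 0 ∧ u.nn = 0 ∧ u.gg = 0 ∧ u.t2 = 0 ∧
    (∀ i, a ≤ i.1 → u.rh i = 0) ∧ (∀ i, i.1 < b → u.nu i = 0) ∧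
    ∀ i, P.L + i.1 + 1 < b → u.th i = 0 := Iff.rfl
theorem mem_UT : u ∈ P.UT b ↔ u.sl = 0 ∧ u.ty = 0 ∧ ∀ i, i.1 + 1 < b → u.th i = 0 := Iff.rfl
theorem mem_Uf : u ∈ P.Uf ↔ u.sl = 0 ∧ u.ty = 0 ∧ u.th = 0 ∧ u.cc' = 0 ∧ u.nn' = 0 ∧ u.gg' = 0 ∧
    u.rh' = 0 := Iff.rfl
theorem mem_Ud : u ∈ P.Ud ↔ u.sl = 0 ∧ u.ty = 0 ∧ u.cc = 0 ∧ u.rh = 0 := Iff.rfl
theorem mem_Ul : u ∈ P.Ul ↔ u.sl = 0 := Iff.rfl
theorem mem_Uh : u ∈ P.Uh ↔ u.sl = 0 ∧ u.ty = 0 ∧ u.th = 0 :=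
  ⟨fun h => ⟨h.1, h.2.1, funext fun i => h.2.2 i (Nat.succ_lt_succ i.2)⟩,
    fun h => ⟨h.1, h.2.1, fun i _ => congrFun h.2.2 i⟩⟩

variable (P) in
theorem hy : (2 : ℝ) ^ 20 ≤ P.y := by exact_mod_cast P.hyp.hy

variable (P) in
theorem y_pos : (0 : ℝ) < P.y := lt_of_lt_of_le (by positivity) P.hy

theorem UU_le {a' b' : ℕ} (ha : a ≤ a') (hb : b' ≤ b) : P.UU a b ≤ P.UU a' b' :=
  fun _ ⟨h1, h2, h3, h4, h5, h6, h7, h8, h9⟩ => ⟨h1, h2, h3, h4, h5, h6,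
    fun i k => h7 i (ha.trans k), fun i k => h8 i (k.trans_le hb), fun i k => h9 i (k.trans_le hb)⟩

theorem UT_le {b' : ℕ} (hb : b' ≤ b) : P.UT b ≤ P.UT b' :=
  fun _ h => ⟨h.1, h.2.1, fun i k => h.2.2 i (k.trans_le hb)⟩

theorem Uh_le : P.Uh ≤ P.UT b := fun _ h =>
  ⟨h.1, h.2.1, fun i _ => congrFun (mem_Uh.1 h).2.2 i⟩

theorem Us_le : P.Us b ≤ P.UT b := fun _ h =>
  ⟨h.1, h.2.1, fun i k => h.2.2.2.2.2.2.2.2 i (by omega)⟩

theorem Uf_le : P.Uf ≤ P.Uh := fun _ h => mem_Uh.2 ⟨h.1, h.2.1, h.2.2.1⟩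

theorem UU_le_Ul : P.UU a b ≤ P.Ul := fun _ h => h.1
theorem UT_le_Ul : P.UT b ≤ P.Ul := fun _ h => h.1

theorem iN_mem (ν : Fin (30 * P.r + 11) → P.Ver) : iN ν ∈ P.Uh := by simp [mem_Uh]
theorem iR_mem (ρ : Bv (14 * P.r)) : iR ρ ∈ P.UU P.L b := by
  simp [mem_UU]
theorem iR_mem' (ρ : Bv (14 * P.r)) : iR ρ ∈ P.Uh := by simp [mem_Uh]
theorem at3_mem (j : P.Idx) : j - at3 j.sl j.ty j.th ∈ P.Uh := by simp [mem_Uh]

/-- A coordinate as a homomorphism. -/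
def gt {A : Type} [AddCommGroup A] (n i : ℕ) : (Fin n → A) →+ A :=
  if h : i < n then Pi.evalAddMonoidHom (fun _ => A) ⟨i, h⟩ else 0

theorem gt_eq {A : Type} [AddCommGroup A] {n : ℕ} (i : Fin n) (f : Fin n → A) :
    gt n i f = f i := by simp [gt]

theorem sub_a : Sub (P.UU (a + 1) b) (P.UU a b) 2 := by
  refine sub_of_ker ((gt _ a).comp (.mk' Ix.rh Ix.add_rh)) (UU_le a.le_succ le_rfl) ?_ (by simp)
  rintro u ⟨h1, h2, h3, h4, h5, h6, h7, h8⟩ e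
  refine ⟨h1, h2, h3, h4, h5, h6, fun i k => ?_, h8⟩
  obtain rfl | k := k.eq_or_lt
  exacts [(gt_eq i _).symm.trans e, h7 i k]

theorem sub_b3 (hb : b ≤ P.L) : Sub (P.UU a b) (P.UU a (b + 1)) (P.y ^ 3) := by
  refine sub_of_ker ((gt _ b).comp (.mk' Ix.nu Ix.add_nu)) (UU_le le_rfl b.le_succ) ?_ P.cV.le
  rintro u ⟨h1, h2, h3, h4, h5, h6, h7, h8, -⟩ e
  refine ⟨h1, h2, h3, h4, h5, h6, h7, fun i k => ?_, fun i k => by omega⟩
  obtain rfl | k := (Nat.le_of_lt_succ k).eq_or_lt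
  exacts [(gt_eq i _).symm.trans e, h8 i k]

theorem sub_b : Sub (P.UU a b) (P.UU a (b + 1)) (P.y ^ 4) := by
  refine sub_of_ker (A := P.Ver × Bv 6) (((gt _ b).comp (.mk' Ix.nu Ix.add_nu)).prod
    ((gt _ (b - P.L - 1)).comp (.mk' Ix.th Ix.add_th))) (UU_le le_rfl b.le_succ) ?_ ?_
  · rintro u ⟨h1, h2, h3, h4, h5, h6, h7, h8, h9⟩ e
    refine ⟨h1, h2, h3, h4, h5, h6, h7, fun i k => ?_, fun i k => ?_⟩
    · obtain rfl | k := (Nat.le_of_lt_succ k).eq_or_lt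
      exacts [(gt_eq i _).symm.trans (congrArg Prod.fst e), h8 i k]
    · obtain k | k := (Nat.le_of_lt_succ k).eq_or_lt
      · have := congrArg Prod.snd e
        rw [show b - P.L - 1 = i by omega] at this
        exact (gt_eq i _).symm.trans this
      · exact h9 i k
  · have := P.hyp.hy
    rw [Nat.card_prod, P.cV, pow_succ _ 3]
    exact Nat.mul_le_mul_left _ (le_trans (by simp) (show 64 ≤ P.y by omega))

theorem ver_inv : Inv (P.UU a (b + 1)) (ver b) := fun j u h => by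
  unfold ver
  split_ifs with k
  · simp [h.2.2.2.2.2.2.2.1 ⟨b, k⟩ b.lt_succ_self]
  · rfl

theorem purU (K : P.KitP) (a b d : ℕ) (hd : d ≤ P.y) :
    Real P.loc (P.y ^ 131) (In := Fin P.w) (Out := Fin P.w) fun _ x o F =>
      PurR P.enc P.y d (P.UU a b) (P.UU a (b + 1)) (ver b) x o F :=
  K.pur _ _ P.Ver P.Pz _ (.mk' Ix.pz Ix.add_pz)
    (.mk' (fun z => { (0 : P.Idx) with pz := z }) fun _ _ => by ext1 <;> simp) d hd P.cV.le P.cZ
    (fun _ => rfl) (fun _ => by simp [mem_UU]) sub_b ver_inv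

/-- At most one version is suspect. -/
theorem sus (hb : b < 30 * P.r + 11) {B C : P.Idx → Prop} (hB : Inv (P.UU a b) B)
    (h : ∀ j, B j → ∃ ν, ∀ u ∈ P.UU a b, ver b (j + u) ≠ ν → C (j + u)) (j : P.Idx) :
    pr (fun ν => B (j + iN ν) ∧ ¬C (j + iN ν)) ≤ 1 / (P.y : ℝ) ^ 3 := by
  rw [pr, ← av_av_shift _ fun t : P.Ver => Pi.single (⟨b, hb⟩ : Fin _) t]
  refine av_le fun ν => ?_
  have hm : ∀ t : P.Ver, iN (Pi.single (⟨b, hb⟩ : Fin _) t) ∈ P.UU a b := fun t => by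
    simp +contextual [mem_UU, Fin.ext_iff, ne_of_lt]
  have he : ∀ t : P.Ver, j + iN (ν + Pi.single ⟨b, hb⟩ t) =
      j + iN ν + iN (Pi.single ⟨b, hb⟩ t) := fun t => by ext1 <;> simp [add_assoc]
  refine (pr_le_inv fun s t hs ht => ?_).trans_eq (by rw [P.cV, Nat.cast_pow])
  rw [he] at hs ht
  obtain ⟨μ, hμ⟩ := h _ (hB _ _ (hm s) ▸ hs.1)
  have e1 := by_contra fun k => hs.2 (hμ _ (hm s) k)
  have e2 := by_contra fun k => ht.2 (hμ _ (hm t) k)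
  simpa [ver, hb] using e1.trans e2.symm

theorem sus' (hb : b < 30 * P.r + 11) {B C : P.Idx → Prop} (hB : Inv (P.UU a b) B)
    (h : ∀ j, B j → ∃ ν, ∀ u ∈ P.UU a b, ver b (j + u) ≠ ν → C (j + u)) (j : P.Idx) :
    pr (fun u : P.Uh => B (j + u) ∧ ¬C (j + u)) ≤ 1 / (P.y : ℝ) ^ 3 :=
  pr_le_of_sh (B := fun i => B i ∧ ¬C i) iN iN_mem (sus hb hB h) j

section
variable {W : P.Wd} {U : AddSubgroup P.Idx} {j : P.Idx} {g : P.X → P.E}

theorem cw_spec (h : Cls W U j) : Ld P.y (cw W U j) ∧ err P.enc W U j (cw W U j) ≤ e3 P.y :=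
  Classical.epsilon_spec h

theorem cw_inv (W : P.Wd) (U : AddSubgroup P.Idx) : Inv U (cw W U) := fun j u hu => by
  simp only [cw, err_add _ _ hu]

theorem cls_inv (W : P.Wd) (U : AddSubgroup P.Idx) : Inv U (Cls W U) := fun j u hu => by
  simp only [Cls, err_add _ _ hu]

theorem wst_inv (W : P.Wd) : Inv P.Uh (wst W) := fun j u hu => by
  funext h
  simp only [wst, cw_inv W _ j u hu]

theorem light_inv (F : Set P.Lab) : Inv P.Uh (Light F) := fun j u hu => by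
  simp only [Light, flt_add (Uh_le hu)]

theorem cw_eq (h : Ld P.y g) (h' : err P.enc W U j g ≤ e3 P.y) : cw W U j = g := by
  obtain ⟨k, k'⟩ := cw_spec ⟨g, h, h'⟩
  have hy := P.hyp.hy
  have y1 := P.hy
  have y2 : (P.y : ℝ) * 2 ^ 20 ≤ P.y ^ 9 := by
    calc (P.y : ℝ) * 2 ^ 20 ≤ P.y * P.y := by gcongr
      _ = P.y ^ 2 := by ring
      _ ≤ _ := pow_le_pow_right₀ (by linarith) (by norm_num)
  refine P.hyp.ld.uniq ?_ k h (lt_of_le_of_lt (b := 2 * e3 P.y) ?_ ?_)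
  · rw [P.hyp.cE]
    calc P.y + 1 < P.y * P.y := by nlinarith
      _ = P.y ^ 2 := by ring
      _ ≤ _ := Nat.pow_le_pow_right (by omega) (by norm_num)
  · rw [← pr_fst (β := P.X), ← pr_snd (α := U)]
    exact (pr_le_add fun q e => not_and_or.1 fun k => e (k.1.uniq k.2)).trans
      ((add_le_add k' h').trans_eq (two_mul _).symm)
  · rw [e3, mul_one_div, div_lt_div_iff₀ (by positivity) (by positivity)]
    linarith

theorem ld_y (q : Bv (16 * P.r) → Prop) : Ld P.y (mlp q : P.X → P.E) :=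
  (ld_mlp q).mono P.hyp.hm

theorem mlp_ne (q : Bv (16 * P.r) → Prop) (h : Bv (16 * P.r)) :
    (mlp q : P.X → P.E) (cub h) ≠ 0 ↔ q h := by
  rw [mlp, P.hyp.ld.cube, bit_ne]

end

theorem light_pr {F : Set P.Lab} {j : P.Idx} (h : Light F j) (hb : b ≤ P.k + 1) :
    pr (fun u : P.Uh => e0 P.y < flt (P.Us b) (j + u) F) ≤ 1 / (P.y : ℝ) ^ 3 := by
  have y0 := P.y_pos
  have e : av (fun u : P.Uh => flt (P.Us b) (j + u) F) = flt (P.UT b) j F := by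
    refine (av_cover (ob_inv (P.Us b) _) P.Uh.subtype (fun a => Uh_le a.2) (fun u hu =>
      ⟨⟨u - iT u.th, by simpa [mem_Uh] using ⟨hu.1, hu.2.1⟩⟩, ?_⟩) j).trans (ob_avg Us_le j _)
    simpa [mem_UU] using fun i k => hu.2.2 i (by omega)
  refine (pr_mono fun _ => le_of_lt).trans ((markov (fun _ => flt_nonneg _ _ _)
    (by unfold e0; positivity)).trans ?_)
  rw [e, div_le_iff₀ (by unfold e0; positivity), e0, div_mul_div_comm, ← pow_add, one_mul]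
  exact h b hb

theorem card_le (U : AddSubgroup P.Idx) : Nat.card U ≤ Nat.card P.Lab :=
  Nat.card_le_card_of_injective (fun u => ((u : P.Idx), 0, 0)) fun _ _ e =>
    Subtype.ext (congrArg Prod.fst e)

theorem smp1 (U : AddSubgroup P.Idx) : ∃ γ : Fin (P.y ^ 2) → U, Smp γ (1 / 1024) :=
  P.hyp.s1 U (fun u => Subtype.ext (P.hyp.two u)) (card_le U)

theorem smp2 (U : AddSubgroup P.Idx) : ∃ γ : Fin (P.y ^ 62) → U, Smp γ (1 / (P.y : ℝ) ^ 30) :=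
  P.hyp.s2 U (fun u => Subtype.ext (P.hyp.two u)) (card_le U)

end Par

end Pool.Agent.PP
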