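import Pool.Agent.MP_13199e_lc.PP.E.Spec

/-! PROJECT PP, block E, row CASC: the cascade of thresholds. -/

set_option autoImplicit false
set_option linter.unusedSectionVars false

namespace Pool.Agent.PP

namespace Casc

theorem thr_ge (t : Bv 6) : 2 / 5 ≤ thr t := le_add_of_nonneg_right (by positivity)

theorem thr_le (t : Bv 6) : thr t ≤ 3 / 5 := by
  unfold thr
  generalize (Fintype.equivFinOfCardEq _ t : Fin 64) = n
  have : ((n : ℕ) : ℝ) ≤ 63 := by exact_mod_cast Nat.le_of_lt_succ n.2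
  linarith

theorem thr_cnt (a : ℝ) (t0 : Bv 6) :
    pr (fun t => a < thr (t0 + t) ∧ thr (t0 + t) < a + 3 / 200) ≤ 5 / 64 := by
  simp only [add_comm t0]
  rw [pr_shift (fun t => a < thr t ∧ thr t < a + 3 / 200)]
  unfold thr
  generalize (Fintype.equivFinOfCardEq _ : Bv 6 ≃ Fin 64) = n
  refine (pr_mono (q := fun t => ∃ r : Fin 5, (a < 2 / 5 + ((n t : ℕ) : ℝ) / 315 ∧
    2 / 5 + ((n t : ℕ) : ℝ) / 315 < a + 3 / 200) ∧ (n t : ℕ) % 5 = r) fun t h =>
      ⟨⟨_, Nat.mod_lt _ (by norm_num)⟩, h, rfl⟩).trans ((pr_exists_le' fun r => pr_le_inv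
        fun s t hs ht => n.injective (Fin.ext ?_)).trans_eq (by simp; norm_num))
  have h1 : (n s : ℕ) < n t + 5 := by
    have : ((n s : ℕ) : ℝ) < (n t : ℕ) + 5 := by linarith [hs.1.2, ht.1.1]
    exact_mod_cast this
  have h2 : (n t : ℕ) < n s + 5 := by
    have : ((n t : ℕ) : ℝ) < (n s : ℕ) + 5 := by linarith [hs.1.1, ht.1.2]
    exact_mod_cast this
  have := hs.2.trans ht.2.symm
  omega

theorem lam (x n : ℝ) : (1 / 1024 : ℝ) ^ 2 * x / (1 / n) ^ 2 = n ^ 2 / 2 ^ 20 * x := by
  rw [one_div n, inv_pow, div_inv_eq_mul]; ring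

variable {Ω σ V : Type} [AddCommGroup Ω] [Finite Ω] [Finite σ] [Nonempty σ] (γ : σ → Ω)

/-- The regular points. -/
def Rg (A : ℕ → Ω → Prop) : ℕ → Ω → Prop
  | 0 => A 0
  | i + 1 => fun u => A (i + 1) u ∧ pr (fun s => ¬Rg A i (u + γ s)) ≤ 1 / 200

variable {γ}

theorem Rg.le {A : ℕ → Ω → Prop} {i : ℕ} {u : Ω} (h : Rg γ A i u) : A i u := by
  cases i
  exacts [h, h.1]

theorem Rg_congr {A A' : ℕ → Ω → Prop} : ∀ i, (∀ j ≤ i, A j = A' j) → Rg γ A i = Rg γ A' i
  | 0, h => h 0 le_rfl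
  | i + 1, h => by
    rw [Rg, Rg, h _ le_rfl, Rg_congr i fun j hj => h j (hj.trans i.le_succ)]

theorem light (hs : Smp γ (1 / 1024)) {A : ℕ → Ω → Prop} :
    ∀ i, (∀ j ≤ i, pr (fun u => ¬A j u) ≤ 1 / 4000) → pr (fun u => ¬Rg γ A i u) ≤ 1 / 1000
  | 0, h => (h 0 le_rfl).trans (by norm_num)
  | i + 1, h => by
    have h1 := light hs i fun j hj => h j (hj.trans i.le_succ)
    have h2 := hs.up (ξ := 1 / 250) h1 (by norm_num)
    have h3 := pr_le_add (r := fun u => ¬Rg γ A (i + 1) u) (p := fun u => ¬A (i + 1) u)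
      (q := fun g => 1 / 1000 + 1 / 250 ≤ pr fun s => ¬Rg γ A i (g + γ s)) fun u hu => by
        by_contra k
        push Not at k
        exact hu ⟨k.1, by linarith [k.2]⟩
    rw [lam] at h2
    linarith [h _ le_rfl]

/-- The error with respect to `c`. -/
noncomputable def Er (R q : Ω → Prop) (c : Prop) : ℝ := pr fun u => R u ∧ ¬(q u ↔ c)

/-- One stage. -/
def St (γ : σ → Ω) (R q R' q' : Ω → Prop) (t : ℝ) : Prop :=
  ∀ u, R' u → pr (fun s => ¬R (u + γ s)) ≤ 1 / 200 ∧
    ∃ b : σ → Prop, (∀ s, R (u + γ s) → (b s ↔ q (u + γ s))) ∧ (q' u ↔ t ≤ pr b)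

variable {R q R' q' : Ω → Prop} {t : ℝ} (hs : Smp γ (1 / 1024)) (h : St γ R q R' q' t)
include hs h

theorem step1 (h1 : 2 / 5 ≤ t) (h2 : t ≤ 3 / 5) (c : Prop) (he : Er R q c ≤ 1 / 5) :
    Er R' q' c ≤ Er R q c / 2 := by
  have h3 := hs.up (ξ := 1 / 10) he (by norm_num)
  have h4 : 0 ≤ Er R q c := pr_nonneg _
  refine ((pr_mono fun u hu => ?_).trans h3).trans (by unfold Er at *; rw [lam]; linarith)
  obtain ⟨a1, b, a2, a3⟩ := h u hu.1
  have a4 := pr_le_add (r := fun s => ¬(b s ↔ c)) (p := fun s => ¬R (u + γ s))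
    (q := fun s => R (u + γ s) ∧ ¬(q (u + γ s) ↔ c)) fun s k => by
      by_cases z : R (u + γ s)
      · exact .inr ⟨z, by rwa [← a2 s z]⟩
      · exact .inl z
  have a5 := hu.2
  rw [a3] at a5
  by_cases hc : c
  · simp only [hc, iff_true, not_le] at a4 a5 ⊢
    rw [pr_not b] at a4
    linarith
  · simp only [hc, iff_false, not_not] at a4 a5 ⊢
    linarith

theorem step2 : min (Er R' q' True) (Er R' q' False) ≤ 1 / 100 +
    ind (pr (fun u => R u ∧ q u) - 1 / 200 < t ∧ t < pr (fun u => R u ∧ q u) - 1 / 200 + 3 / 200) := by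
  have h3 := hs.tail (ξ := 1 / 200) (fun u => R u ∧ q u) (by norm_num)
  generalize hP : pr (fun u => R u ∧ q u) = P at *
  have h4 : (1 / 1024 : ℝ) ^ 2 * (P * (1 - P)) / (1 / 200) ^ 2 ≤ 1 / 100 := by
    rw [lam]; nlinarith [sq_nonneg (P - 1 / 2)]
  have key : ∀ c : Prop, (c → t ≤ P - 1 / 200) → (¬c → P + 1 / 100 ≤ t) → Er R' q' c ≤ 1 / 100 :=
    fun c c1 c2 => ((pr_mono fun u hu => by
      obtain ⟨a1, b, a2, a3⟩ := h u hu.1
      have a4 : pr (fun s => R (u + γ s) ∧ q (u + γ s)) ≤ pr b :=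
        pr_mono fun s k => (a2 s k.1).2 k.2
      have a5 := pr_le_add (r := b) (p := fun s => ¬R (u + γ s))
        (q := fun s => R (u + γ s) ∧ q (u + γ s)) fun s k => by
          by_cases z : R (u + γ s)
          · exact .inr ⟨z, (a2 s z).1 k⟩
          · exact .inl z
      by_contra k
      have := abs_lt.1 (not_le.1 k)
      refine hu.2 (a3.trans ⟨fun z => by_contra fun y => ?_, fun z => ?_⟩)
      · linarith [c2 y]
      · linarith [c1 z]).trans h3).trans h4
  by_cases z : P - 1 / 200 < t ∧ t < P - 1 / 200 + 3 / 200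
  · rw [ind_pos z]
    exact (min_le_left _ _).trans ((pr_le_one _).trans (by norm_num))
  · rw [ind_neg z, add_zero]
    rcases le_or_gt t (P - 1 / 200) with y | y
    · exact (min_le_left _ _).trans (key _ (fun _ => y) fun k => (k trivial).elim)
    · exact (min_le_right _ _).trans (key _ False.elim fun _ => by
        have := not_lt.1 fun k => z ⟨y, k⟩
        linarith)

end Casc

open Casc in
theorem cascS : CascS := by
  intro Ω σ V _ _ _ _ _ γ k A q hs hV hl hq
  have := Fintype.ofFinite V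
  let R : ℕ → (Fin k → Bv 6) → Ω → Prop := fun i θ => Rg γ (A · θ) i
  let E : ℕ → (Fin k → Bv 6) → V → Prop → ℝ := fun i θ v => Er (R i θ) (q i θ · v)
  let e : ℕ → (Fin k → Bv 6) → V → ℝ := fun i θ v => min (E i θ v True) (E i θ v False)
  have e0 : ∀ i θ v, 0 ≤ e i θ v := fun i θ v => le_min (pr_nonneg _) (pr_nonneg _)
  have st : ∀ (i : Fin k) θ v,
      St γ (R i θ) (q i θ · v) (R (i + 1) θ) (q (i + 1) θ · v) (thr (θ i)) := fun i θ v u hu =>
    let ⟨b, h1, h2⟩ := hq i θ u hu.1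
    ⟨hu.2, (b · v), fun s z => iff_of_eq (congrFun (h1 s z.le) v), h2 v⟩
  have s1 : ∀ (i : Fin k) θ v c, E i θ v c ≤ 1 / 5 → E (i + 1) θ v c ≤ E i θ v c / 2 :=
    fun i θ v => step1 hs (st i θ v) (thr_ge _) (thr_le _)
  have s2 : ∀ (i : Fin k) θ v,
      av (fun t => e (i + 1) (θ + Pi.single i t) v) ≤ e i θ v / 2 := fun i θ v => by
    have a0 : ∀ t, ∀ j ≤ i.1, A j (θ + Pi.single i t) = A j θ ∧ q j (θ + Pi.single i t) = q j θ :=
      fun t j hj => hl j _ _ fun a ha => by
        rw [Pi.add_apply, Pi.single_eq_of_ne (fun z => by subst z; omega), add_zero]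
    have a1 : ∀ t, R i (θ + Pi.single i t) = R i θ := fun t => Rg_congr _ fun j hj => (a0 t j hj).1
    have a2 : ∀ t, q i (θ + Pi.single i t) = q i θ := fun t => (a0 t i le_rfl).2
    rcases le_or_gt (e i θ v) (1 / 5) with y | y
    · refine av_le fun t => ?_
      have a3 := s1 i (θ + Pi.single i t) v
      simp only [E, a1, a2] at a3
      rcases min_choice (E i θ v True) (E i θ v False) with z | z <;> simp only [e, z] at y ⊢
      exacts [(min_le_left _ _).trans (a3 _ y), (min_le_right _ _).trans (a3 _ y)]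
    · have a3 := av_mono fun t => step2 hs (st i (θ + Pi.single i t) v)
      simp only [a1, a2, Pi.add_apply, Pi.single_eq_same, av_add, av_const] at a3
      have a4 := thr_cnt (pr (fun u => R i θ u ∧ q i θ u v) - 1 / 200) (θ i)
      unfold pr at a3 a4
      exact a3.trans (by linarith)
  have s3 : ∀ v, ∀ i ≤ k, av (e i · v) ≤ 1 / 2 ^ i := fun v i => by
    induction i with
    | zero => exact fun _ => av_le fun θ => (min_le_left _ _).trans ((pr_le_one _).trans (by simp))
    | succ i ih =>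
      intro hi
      have := av_mono fun θ => s2 ⟨i, hi⟩ θ v
      rw [av_av_shift (e (i + 1) · v), av_div] at this
      have := ih (by omega)
      rw [pow_succ, ← div_div]
      linarith
  refine ⟨fun θ => ¬1 / 10 ≤ ∑ v, e k θ v, ?_, fun θ hL hA => ?_⟩
  · simp only [not_not]
    refine (markov (fun θ => Finset.sum_nonneg fun v _ => e0 k θ v) (by norm_num)).trans ?_
    have a1 := Finset.sum_le_card_nsmul Finset.univ _ _ fun v _ => s3 v k le_rfl
    have a2 : (Fintype.card V : ℝ) * 2 ^ 10 ≤ 2 ^ k := by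
      rw [← Nat.card_eq_fintype_card]; exact_mod_cast hV
    rw [Finset.card_univ, nsmul_eq_mul, mul_one_div, le_div_iff₀ (by positivity)] at a1
    rw [av_sum]
    have : (0 : ℝ) < 2 ^ k := by positivity
    nlinarith
  have a1 : pr (fun u => ¬R k θ u) ≤ 1 / 1000 := light hs k hA
  have a2 : ∀ v, E k θ v (E k θ v True ≤ E k θ v False) = e k θ v := fun v => by
    by_cases z : E k θ v True ≤ E k θ v False
    · rw [eq_true z]; exact (min_eq_left z).symm
    · rw [eq_false z]; exact (min_eq_right (not_le.1 z).le).symm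
  have hL : ∑ v, e k θ v < 1 / 10 := not_le.1 hL
  refine ⟨fun v => E k θ v True ≤ E k θ v False, ?_, fun v c hc => by_contra fun z => ?_⟩
  · refine (pr_le_add (p := fun u => ¬R k θ u) (q := fun u => ∃ v, R k θ u ∧
      ¬(q k θ u v ↔ E k θ v True ≤ E k θ v False)) fun u hu => ?_).trans ?_
    · by_contra y
      simp only [not_or, not_not, not_exists, not_and] at y
      exact hu ⟨y.1.le, funext fun v => propext (y.2 v y.1)⟩
    · have := (pr_exists_le fun v u => R k θ u ∧
        ¬(q k θ u v ↔ E k θ v True ≤ E k θ v False)).trans_eq (Finset.sum_congr rfl fun v _ => a2 v)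
      linarith
  · have a3 : ∀ i ≤ k, E i θ v c ≤ 1 / 5 := fun i => by
      induction i with
      | zero => exact fun _ => hc
      | succ i ih =>
        intro hi
        have := s1 ⟨i, hi⟩ θ v c (ih (by omega))
        linarith [ih (by omega)]
    have a4 := (Finset.single_le_sum (fun v _ => e0 k θ v) (Finset.mem_univ v)).trans_lt hL
    have a5 : pr (R k θ) ≤ E k θ v c + E k θ v (E k θ v True ≤ E k θ v False) :=
      pr_le_add fun u hu => by
        by_contra y
        simp only [not_or, not_and, not_not] at y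
        exact z ((y.2 hu).symm.trans (y.1 hu))
    rw [pr_not] at a1
    linarith [a2 v, a3 k le_rfl]

end Pool.Agent.PP
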