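import Pool.Agent.MP_13199e_lc.PP.E.Base

/-! PROJECT PP, block E: the mean damage. -/

set_option autoImplicit false

namespace Pool.Agent.PP.Par

variable {P : Par} {Z : Type} [Finite Z] (F : Set (Z × P.Lab)) (s : P.Sl)

theorem cnt_av {U : AddSubgroup P.Idx} (hU : U ≤ P.Ul) :
    av (fun a : Z × P.Ul => flt U (at3 s 0 0 + a.2) (sF F a.1)) = Ph F s :=
  (av_prod _).trans (av_congr fun z => ob_avg hU _ (· ∈ sF F z))

theorem cnt_ex (U : ℕ → AddSubgroup P.Idx) (hU : ∀ i, U i ≤ P.Ul) {n : ℕ} (hn : n + 1 ≤ P.y)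
    (e : ℕ) : pr (fun a : Z × P.Ul => ¬∀ i ≤ n, flt (U i) (at3 s 0 0 + a.2) (sF F a.1) ≤
      1 / (P.y : ℝ) ^ e) ≤ (P.y : ℝ) ^ (e + 1) * Ph F s := by
  have y0 := P.y_pos
  have p0 : 0 ≤ Ph F s := av_nonneg fun _ => flt_nonneg _ _ _
  refine (pr_mono fun a h => ?_).trans ((pr_exists_le' (β := Fin (n + 1)) fun i =>
    (markov (fun _ => flt_nonneg _ _ _) (c := 1 / (P.y : ℝ) ^ e) (by positivity)).trans_eq
      (by rw [cnt_av F s (hU i)])).trans ?_)
  · push Not at h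
    obtain ⟨i, h1, h2⟩ := h
    exact ⟨⟨i, Nat.lt_succ_of_le h1⟩, h2.le⟩
  · rw [div_div_eq_mul_div, div_one, pow_succ', mul_assoc, mul_comm (Ph F s), Nat.card_fin]
    exact mul_le_mul_of_nonneg_right (Nat.cast_le.2 hn) (by positivity)

theorem cnt_fib {H : Z → P.Wd} {Lk : Z → P.Idx → Prop} (h1 : ∀ z, Inv P.Uh (Lk z))
    (h2 : ∀ z j, Lk z j → Light (sF F z) j →
      pr (fun u : P.Uh => e3 P.y / 2 < err P.enc (H z) P.Uf (j + u) (mlp (wst (H z) j))) ≤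
        (P.y : ℝ) ^ 21 * flt P.Uh j (sF F z)) :
    pr (fun a : Z × P.Ul => Lk a.1 (at3 s 0 0 + a.2) ∧ Light (sF F a.1) (at3 s 0 0 + a.2) ∧
      e3 P.y / 2 < err P.enc (H a.1) P.Uf (at3 s 0 0 + a.2) (mlp (wst (H a.1) (at3 s 0 0 + a.2)))) ≤
      (P.y : ℝ) ^ 21 * Ph F s := by
  rw [← cnt_av F s (U := P.Uh) UT_le_Ul, ← av_mul, pr_prod, av_prod]
  refine av_mono fun z => ?_
  refine (av_avg (U' := P.Uh) UT_le_Ul (at3 s 0 0) fun j => ind (Lk z j ∧ Light (sF F z) j ∧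
    e3 P.y / 2 < err P.enc (H z) P.Uf j (mlp (wst (H z) j)))).ge.trans (av_mono fun u => ?_)
  simp only [h1 z _ _ (Subtype.prop _), light_inv _ _ _ (Subtype.prop _),
    wst_inv _ _ _ (Subtype.prop _)]
  by_cases q : Lk z (at3 s 0 0 + u) ∧ Light (sF F z) (at3 s 0 0 + u)
  · exact (pr_mono fun _ k => k.2.2).trans (h2 z _ q.1 q.2)
  · exact (pr_of_not fun _ k => q ⟨k.1, k.2.1⟩).trans_le
      (mul_nonneg (pow_pos P.y_pos _).le (flt_nonneg _ _ _))

variable (P) in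
theorem cntS : P.CntS := by
  intro Mv Z _ G ω mv C x H F Bad Lk ch hA hR s
  have hr := P.hr
  have y1 := P.hy
  have p0 : ∀ s, 0 ≤ Ph F s := fun s => av_nonneg fun _ => flt_nonneg _ _ _
  have hL := fun s => cnt_ex F s P.UT (fun _ => UT_le_Ul) (n := P.k + 1) (by unfold k; omega) 72
  have h1 := cnt_ex F s (fun l => P.UU (l + 1) l) (fun _ => UU_le_Ul) (n := P.L)
    (by unfold L; omega) 73
  have h3 := (hA.slot (fun z j => ind (¬Light (sF F z) j)) s).trans_le (hL _)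
  have h4 := (hA.slot (fun z j => ind (Lk z j ∧ Light (sF F z) j ∧
    e3 P.y / 2 < err P.enc (H z) P.Uf j (mlp (wst (H z) j)))) s).trans_le
      (cnt_fib F _ (fun z => (hR.site z).inv) fun z => (hR.site z).fib)
  have m : ∀ e ≤ 74, 2 * (P.y : ℝ) ^ e ≤ (P.y : ℝ) ^ 75 := fun e he => by
    rw [pow_succ']
    exact mul_le_mul (by linarith) (pow_le_pow_right₀ (by linarith) he) (by positivity)
      (by linarith)
  refine ((pr_or _ _).trans (add_le_add h1 ((pr_or _ _).trans (add_le_add (hL s)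
    ((pr_or _ _).trans (add_le_add h3 h4)))))).trans ?_
  have m' := fun e he s => mul_le_mul_of_nonneg_right (m e he) (p0 s)
  linarith [m' (73 + 1) le_rfl s, m' (72 + 1) (by omega) s, m' (72 + 1) (by omega) (ω.1 ch s),
    m' 21 (by omega) (ω.1 ch s)]

end Pool.Agent.PP.Par
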