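import Pool.Agent.MP_13199e_lc.PP.C.Spec

/-! PROJECT PP, block E: the registers of the round. -/

set_option autoImplicit false

namespace Pool.Agent.PP

open Function Pool.Agent.MP_13199e_lc

/-- The thresholds of the stages. -/
abbrev Tk (r : ℕ) : Type := Fin (16 * r + 10) → Bv 6

/-- The registers: slot, type, thresholds; a replicate (chart, link, shift, thresholds, leaf,
versions); a spare replicate; chain and padding. -/
@[ext] structure Ix (r : ℕ) (Sl Ver Pz Pad : Type) where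
  sl : Sl
  ty : Bv (6 * r)
  th : Tk r
  cc : Bv (3 * r)
  nn : Bv (2 * r)
  gg : Bv (16 * r)
  t2 : Tk r
  rh : Bv (14 * r)
  nu : Fin (30 * r + 11) → Ver
  cc' : Bv (3 * r)
  nn' : Bv (2 * r)
  gg' : Bv (16 * r)
  t2' : Tk r
  rh' : Bv (14 * r)
  nu' : Fin (30 * r + 11) → Ver
  pz : Pz
  pad : Pad

namespace Ix

variable {r : ℕ} {Sl Ver Pz Pad : Type}

/-- The registers as a product. -/
def eqv : Ix r Sl Ver Pz Pad ≃ Sl × Bv (6 * r) × Tk r × Bv (3 * r) × Bv (2 * r) × Bv (16 * r) × Tk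
    r × Bv (14 * r) × (Fin (30 * r + 11) → Ver) × Bv (3 * r) × Bv (2 * r) × Bv (16 * r) × Tk r ×
    Bv (14 * r) × (Fin (30 * r + 11) → Ver) × Pz × Pad where
  toFun a := (a.sl, a.ty, a.th, a.cc, a.nn, a.gg, a.t2, a.rh, a.nu, a.cc', a.nn', a.gg', a.t2',
    a.rh', a.nu', a.pz, a.pad)
  invFun := fun (a0, a1, a2, a3, a4, a5, a6, a7, a8, a9, a10, a11, a12, a13, a14, a15, a16) =>
    ⟨a0, a1, a2, a3, a4, a5, a6, a7, a8, a9, a10, a11, a12, a13, a14, a15, a16⟩
  left_inv _ := rfl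
  right_inv _ := rfl

set_option synthInstance.maxSize 2048 in
instance [Finite Sl] [Finite Ver] [Finite Pz] [Finite Pad] : Finite (Ix r Sl Ver Pz Pad) :=
  Finite.of_equiv _ eqv.symm

variable [AddCommGroup Sl] [AddCommGroup Ver] [AddCommGroup Pz] [AddCommGroup Pad]

@[simps -fullyApplied] instance : Zero (Ix r Sl Ver Pz Pad) :=
  ⟨⟨0, 0, 0, 0, 0, 0, 0, 0, 0, 0, 0, 0, 0, 0, 0, 0, 0⟩⟩

@[simps -fullyApplied] instance : Add (Ix r Sl Ver Pz Pad) :=
  ⟨fun a b => ⟨a.sl + b.sl, a.ty + b.ty, a.th + b.th, a.cc + b.cc, a.nn + b.nn, a.gg + b.gg, a.t2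
    + b.t2, a.rh + b.rh, a.nu + b.nu, a.cc' + b.cc', a.nn' + b.nn', a.gg' + b.gg', a.t2' + b.t2',
    a.rh' + b.rh', a.nu' + b.nu', a.pz + b.pz, a.pad + b.pad⟩⟩

@[simps -fullyApplied] instance : Neg (Ix r Sl Ver Pz Pad) :=
  ⟨fun a => ⟨-a.sl, -a.ty, -a.th, -a.cc, -a.nn, -a.gg, -a.t2, -a.rh, -a.nu, -a.cc', -a.nn',
    -a.gg', -a.t2', -a.rh', -a.nu', -a.pz, -a.pad⟩⟩

@[simps -fullyApplied] instance : _root_.Sub (Ix r Sl Ver Pz Pad) :=
  ⟨fun a b => ⟨a.sl - b.sl, a.ty - b.ty, a.th - b.th, a.cc - b.cc, a.nn - b.nn, a.gg - b.gg, a.t2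
    - b.t2, a.rh - b.rh, a.nu - b.nu, a.cc' - b.cc', a.nn' - b.nn', a.gg' - b.gg', a.t2' - b.t2',
    a.rh' - b.rh', a.nu' - b.nu', a.pz - b.pz, a.pad - b.pad⟩⟩

instance : AddCommGroup (Ix r Sl Ver Pz Pad) where
  add_assoc _ _ _ := by ext1 <;> exact add_assoc _ _ _
  zero_add _ := by ext1 <;> exact zero_add _
  add_zero _ := by ext1 <;> exact add_zero _
  nsmul := nsmulRec
  zsmul := zsmulRec
  neg_add_cancel _ := by ext1 <;> exact neg_add_cancel _
  add_comm _ _ := by ext1 <;> exact add_comm _ _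
  sub_eq_add_neg _ _ := by ext1 <;> exact sub_eq_add_neg _ _

end Ix

/-- The parameters of the round. -/
structure Par where
  y : ℕ
  r : ℕ
  w : ℕ
  E : Type
  Sl : Type
  Ver : Type
  Pz : Type
  Pad : Type
  [fE : Field E]
  [nE : Finite E]
  [gS : AddCommGroup Sl]
  [nS : Finite Sl]
  [gV : AddCommGroup Ver]
  [nV : Finite Ver]
  [gZ : AddCommGroup Pz]
  [nZ : Finite Pz]
  [gP : AddCommGroup Pad]
  [nP : Finite Pad]
  enc : E ≃ (Fin w → Bool)
  hb : Pad
  hb0 : hb ≠ 0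
  hyp : Hyp y (16 * r) w E (Ix r Sl Ver Pz Pad)
  r10 : 10 ≤ r
  hr : 32 * r + 32 ≤ y
  cS : Nat.card Sl = y ^ 337
  cV : Nat.card Ver = y ^ 3
  cZ : Nat.card Pz = y ^ 30
  gain : y ^ 1504 ≤ 2 ^ r

attribute [instance] Par.fE Par.nE Par.gS Par.nS Par.gV Par.nV Par.gZ Par.nZ Par.gP Par.nP

/-- The threshold of a stage. -/
noncomputable def thr (t : Bv 6) : ℝ :=
  2 / 5 + ((Fintype.equivFinOfCardEq (by simp) t : Fin 64) : ℕ) / 315

/-- The threshold of a read. -/
noncomputable def cut (fl : Bool) : ℝ := bif fl then 13 / 20 else 7 / 20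

open Classical in
/-- The value of a gate. -/
def gv (g : Gate) (β : Ch × Bool → Prop) : Prop :=
  tt g.1 (decide (β g.2.1)) (decide (β g.2.2)) = true

open Classical in
/-- The four valued rounding. -/
noncomputable def q4 (t : ℝ) : V4 :=
  if t ≤ 1 / 5 then 0 else if t ≤ 1 / 2 then 1 else if t < 4 / 5 then 2 else 3

namespace Par

variable (P : Par)

abbrev Idx : Type := Ix P.r P.Sl P.Ver P.Pz P.Pad
abbrev X : Type := Fin (16 * P.r) → P.E
abbrev Lab : Type := Lb P.Idx P.E (16 * P.r)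
abbrev Wd : Type := Fin P.w → P.Lab → V4
abbrev Cx : Type := Bv (6 * P.r) × Bv (16 * P.r) → P.Sl → Gate
/-- The number of levels of the tree. -/
abbrev L : ℕ := 14 * P.r
/-- The number of stages. -/
abbrev k : ℕ := 16 * P.r + 10

variable {P}

/-- The version register `b`. -/
def ver (b : ℕ) (j : P.Idx) : P.Ver := if h : b < 30 * P.r + 11 then j.nu ⟨b, h⟩ else 0

/-- Embeddings of registers. -/
@[simps -fullyApplied] def iT (t : Tk P.r) : P.Idx := { (0 : P.Idx) with th := t }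
@[simps -fullyApplied] def iR (ρ : Bv (14 * P.r)) : P.Idx := { (0 : P.Idx) with rh := ρ }
@[simps -fullyApplied] def iN (ν : Fin (30 * P.r + 11) → P.Ver) : P.Idx := { (0 : P.Idx) with nu := ν }

/-- The base index of a holder. -/
@[simps -fullyApplied] def at3 (s : P.Sl) (M : Bv (6 * P.r)) (t : Tk P.r) : P.Idx :=
  { (0 : P.Idx) with sl := s, ty := M, th := t }

/-- The base index of a reader. -/
@[simps -fullyApplied] def at4 (s : P.Sl) (M : Bv (6 * P.r)) (c : Bv (3 * P.r)) (ρ : Bv (14 * P.r)) : P.Idx :=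
  { (0 : P.Idx) with sl := s, ty := M, cc := c, rh := ρ }

variable (P)

/-- The objects of the tree and of the stages: the leaf bits below `a` and the versions from `b`
on are free. -/
def UU (a b : ℕ) : AddSubgroup P.Idx where
  carrier := {u | u.sl = 0 ∧ u.ty = 0 ∧ u.cc = 0 ∧ u.nn = 0 ∧ u.gg = 0 ∧ u.t2 = 0 ∧
    (∀ i, a ≤ i.1 → u.rh i = 0) ∧ (∀ i, i.1 < b → u.nu i = 0) ∧
    ∀ i, P.L + i.1 + 1 < b → u.th i = 0}
  zero_mem' := by simp
  add_mem' := by simp +contextual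
  neg_mem' := by simp +contextual

/-- Whole replicates are free. -/
def UT (b : ℕ) : AddSubgroup P.Idx where
  carrier := {u | u.sl = 0 ∧ u.ty = 0 ∧ ∀ i, i.1 + 1 < b → u.th i = 0}
  zero_mem' := by simp
  add_mem' := by simp +contextual
  neg_mem' := by simp +contextual

/-- The object of a holder. -/
abbrev Uh : AddSubgroup P.Idx := P.UT (P.k + 1)

/-- The objects of the stages. -/
abbrev Us (i : ℕ) : AddSubgroup P.Idx := P.UU P.L (P.L + i)

/-- The fetched fibre. -/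
def Uf : AddSubgroup P.Idx where
  carrier := {u | u.sl = 0 ∧ u.ty = 0 ∧ u.th = 0 ∧ u.cc' = 0 ∧ u.nn' = 0 ∧ u.gg' = 0 ∧ u.rh' = 0}
  zero_mem' := by simp
  add_mem' := by simp +contextual
  neg_mem' := by simp +contextual

/-- Slot, type, chart and leaf are fixed. -/
def Ud : AddSubgroup P.Idx where
  carrier := {u | u.sl = 0 ∧ u.ty = 0 ∧ u.cc = 0 ∧ u.rh = 0}
  zero_mem' := by simp
  add_mem' := by simp +contextual
  neg_mem' := by simp +contextual

/-- Only the slot is fixed. -/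
def Ul : AddSubgroup P.Idx where
  carrier := {u | u.sl = 0}
  zero_mem' := by simp
  add_mem' := by simp +contextual
  neg_mem' := by simp +contextual

variable {P}

/-- Few faults in all objects of the stages. -/
def Light (F : Set P.Lab) (j : P.Idx) : Prop :=
  ∀ i ≤ P.k + 1, flt (P.UT i) j F ≤ 1 / (P.y : ℝ) ^ 72

/-- Few faults along the path in the tree. -/
def Calm (F : Set P.Lab) (j : P.Idx) : Prop :=
  ∀ l ≤ P.L, flt (P.UU (l + 1) l) j F ≤ 1 / (P.y : ℝ) ^ 73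

/-- The word is close to a low degree function. -/
def Cls (W : P.Wd) (U : AddSubgroup P.Idx) (j : P.Idx) : Prop :=
  ∃ g, Ld P.y g ∧ err P.enc W U j g ≤ e3 P.y

/-- The function to which the word is close. -/
noncomputable def cw (W : P.Wd) (U : AddSubgroup P.Idx) (j : P.Idx) : P.X → P.E :=
  Classical.epsilon fun g => Ld P.y g ∧ err P.enc W U j g ≤ e3 P.y

/-- The opinions of a holder. -/
def wst (H : P.Wd) (j : P.Idx) (h : Bv (16 * P.r)) : Prop := cw H P.Uh j (cub h) ≠ 0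

/-- The index of the leaf that belongs to `h`. -/
def lf (ro : P.Idx → Bv (16 * P.r) →+ Bv (14 * P.r)) (h : Bv (16 * P.r)) (j : P.Idx) : P.Idx :=
  j + iR (ro j h - j.rh)

section
variable {Mv : Type} (G : Geo P.r Mv) (ω : Wir Mv P.Sl) (ch : Ch)

/-- The twisted type, chart and link. -/
def tw (j : P.Idx) : Bv (6 * P.r) × Bv (3 * P.r) × Bv (2 * P.r) :=
  G.tw (ω.2 ch j.sl) (j.ty, j.cc, j.nn)

/-- The map on the cube. -/
def fA (j : P.Idx) : Bv (16 * P.r) →+ Bv (16 * P.r) := G.A (ω.2 ch j.sl) (j.ty, j.cc, j.nn)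

/-- The map to the leaves. -/
def fR (j : P.Idx) : Bv (16 * P.r) →+ Bv (14 * P.r) := G.ro (ω.2 ch j.sl) j.cc

/-- The word of the fetch wire. -/
def fw (j : P.Idx) : List Mv := G.wc (ω.2 ch j.sl) j.ty j.rh ++ G.wa (tw G ω ch j).1 j.gg

/-- The index that the fetch wire reads. -/
@[simps -fullyApplied] def fi (j : P.Idx) : P.Idx :=
  ⟨ω.1 ch j.sl, (tw G ω ch j).1, j.t2, j.cc', j.nn', j.gg', j.t2', j.rh', j.nu',
    (tw G ω ch j).2.1, (tw G ω ch j).2.2, j.gg, j.th, j.rh, j.nu, j.pz, j.pad⟩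

end

end Par

end Pool.Agent.PP
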