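import Pool.Agent.MP_13199e_lc.PP.E.Base

/-! PROJECT PP, block E: the fetch wire on fibres, thresholds and slots. -/

set_option autoImplicit false

namespace Pool.Agent.PP.Par

open Function

variable {P : Par}

namespace FA

/-- The exchange of the replicates. -/
def sw : P.Idx ≃ P.Idx where
  toFun u := ⟨u.sl, u.ty, u.t2, u.cc', u.nn', u.gg', u.t2', u.rh', u.nu', u.cc, u.nn, u.gg, u.th,
    u.rh, u.nu, u.pz, u.pad⟩
  invFun v := ⟨v.sl, v.ty, v.t2', v.cc', v.nn', v.gg', v.th, v.rh', v.nu', v.cc, v.nn, v.gg, v.t2,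
    v.rh, v.nu, v.pz, v.pad⟩
  left_inv _ := rfl
  right_inv _ := rfl

variable {Mv Z : Type} (G : Geo P.r Mv) (ω : Wir Mv P.Sl) (mv : Mv → Z → Z) (ch : Ch)
  (j : P.Idx) {u : P.Idx}

theorem fi_add (h1 : u.sl = 0) (h2 : u.ty = 0) (h3 : u.cc = 0) (h4 : u.nn = 0) :
    fi G ω ch (j + u) = fi G ω ch j + sw u := by
  ext1 <;> simp [tw, sw, h1, h2, h3, h4]

theorem fz_add (z : Z) (h1 : u.sl = 0) (h2 : u.ty = 0) (h3 : u.cc = 0) (h4 : u.nn = 0)
    (h5 : u.gg = 0) (h6 : u.rh = 0) : fz G ω mv ch z (j + u) = fz G ω mv ch z j := by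
  simp [fz, fw, tw, h1, h2, h3, h4, h5, h6]

theorem lf_add (h : Bv (16 * P.r)) (h1 : u.sl = 0) (h3 : u.cc = 0) (h6 : u.rh = 0) :
    lf (fR G ω ch) h (j + u) = lf (fR G ω ch) h j + u := by
  simp [lf, fR, h1, h3, h6, add_right_comm]

theorem fi_inj : Injective (fi G ω ch) := fun a b e => by
  have e0 : a.sl = b.sl := (ω.1 ch).injective (congrArg Ix.sl e)
  have e1 : tw G ω ch a = tw G ω ch b :=
    Prod.ext (congrArg Ix.ty e) (Prod.ext (congrArg Ix.cc' e) (congrArg Ix.nn' e))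
  rw [tw, tw, e0] at e1
  have e2 := (G.tw _).injective e1
  exact Ix.ext e0 (congrArg (·.1) e2) (congrArg Ix.t2' e) (congrArg (·.2.1) e2)
    (congrArg (·.2.2) e2) (congrArg Ix.gg' e) (congrArg Ix.th e) (congrArg Ix.rh' e)
    (congrArg Ix.nu' e) (congrArg Ix.cc e) (congrArg Ix.nn e) (congrArg Ix.gg e)
    (congrArg Ix.t2 e) (congrArg Ix.rh e) (congrArg Ix.nu e) (congrArg Ix.pz e :)
    (congrArg Ix.pad e :)

end FA

open FA in
theorem fetAS (P : Par) : P.FetAS := by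
  intro Mv Z _ G ω mv hm ch
  refine ⟨fun B z j => ?_, fun B c hB z j h => ?_, fun B c hB j h => ?_, fun f s => ?_⟩
  · refine Eq.trans (pr_congr fun q => ?_) (pr_equiv ((sw.subtypeEquiv
      (p := (· ∈ P.UU 0 0)) (q := (· ∈ P.Uf)) fun u => ?_).prodCongr (Equiv.refl _)) _)
    · obtain ⟨h1, h2, h3, h4, h5, -, h6, -⟩ := q.1.2
      beta_reduce
      rw [fi_add G ω ch j h1 h2 h3 h4,
        fz_add G ω mv ch j z h1 h2 h3 h4 h5 (funext fun i => h6 i i.1.zero_le)]
      rfl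
    · simp only [mem_UU, mem_Uf, sw, Equiv.coe_fn_mk, funext_iff]
      simp
      tauto
  · refine pr_le_of_sh (B := fun i => B (fz G ω mv ch z (lf (fR G ω ch) h i))
      (fi G ω ch (lf (fR G ω ch) h i))) (fun t => { (0 : P.Idx) with t2 := t })
      (fun _ => by simp [mem_Uh]) (fun i => (pr_congr fun t => ?_).trans_le
        (hB (fz G ω mv ch z (lf (fR G ω ch) h i)) (fi G ω ch (lf (fR G ω ch) h i)))) j
    rw [lf_add G ω ch i h rfl rfl rfl, fi_add G ω ch _ rfl rfl rfl rfl,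
      fz_add G ω mv ch _ z rfl rfl rfl rfl rfl rfl]
    rfl
  · refine pr_le_of_sh (B := fun i => B (lf (fR G ω ch) h i)) iN iN_mem
      (fun i => (pr_congr fun t => ?_).trans_le (hB (lf (fR G ω ch) h i))) j
    rw [lf_add G ω ch i h rfl rfl rfl]
  · refine Eq.trans (av_congr fun a => ?_) (av_bij (e := fun a : Z × P.Ul =>
      ((fz G ω mv ch a.1 (at3 s 0 0 + a.2), ⟨fi G ω ch (at3 s 0 0 + a.2) - at3 (ω.1 ch s) 0 0, by
        simp [mem_Ul, mem_Ul.1 a.2.2]⟩) : Z × P.Ul))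
      (Finite.injective_iff_bijective.1 fun a b e => ?_) _)
    · simp only [add_sub_cancel]
    · have e1 : a.2 = b.2 := Subtype.ext (add_left_cancel (fi_inj G ω ch
        (sub_left_injective (congrArg (fun x : Z × P.Ul => (x.2 : P.Idx)) e))))
      have e2 := congrArg Prod.fst e
      simp only [fz, e1] at e2
      exact Prod.ext (run_inj hm _ e2) e1

end Pool.Agent.PP.Par
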