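import Pool.Agent.MP_13199e_lc.PP.E.Base

/-! PROJECT PP, block E: changes of variables along the fetch wire. -/

set_option autoImplicit false

namespace Pool.Agent.PP

open Function

section
variable {Idx A : Type} [AddCommGroup Idx] [Finite Idx] [AddCommGroup A] [Finite A]
  {U U' : AddSubgroup Idx}

theorem av_cov (h : U' ≤ U) (s : A →+ Idx) (h1 : ∀ a, s a ∈ U) (h2 : ∀ u ∈ U, ∃ a, u - s a ∈ U')
    (j : Idx) (f : Idx → ℝ) :
    av (fun a => av fun u : U' => f (j + s a + u)) = av fun u : U => f (j + u) :=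
  (av_cover (f := fun i => av fun u : U' => f (i + u)) (fun i _ hu => av_sh hu i f) s h1 h2
    j).trans (av_avg h j f)

theorem av_sec (π : Idx → A) (s : A → Idx) (hs : ∀ a, s a ∈ U) (h : ∀ u a, π (u + s a) = π u + a)
    (f : A → ℝ) : av (fun u : U => f (π u)) = av f := by
  rw [← av_av_shift (fun u : U => f (π u)) fun a => ⟨s a, hs a⟩]
  refine (av_congr fun u => ?_).trans (av_const _)
  simp only [AddSubgroup.coe_add, h]
  exact av_equiv (Equiv.addLeft (π u)) f

end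

namespace Par

variable {P : Par} {Mv Z : Type} {G : Geo P.r Mv} {ω : Wir Mv P.Sl} {mv : Mv → Z → Z} {ch : Ch}

theorem fz_eq (hG : G.Ok mv) {j : P.Idx} {h : Bv (16 * P.r)} (hj : j.rh = fR G ω ch j h) (v : Z) :
    fz G ω mv ch (run mv (G.wa j.ty h) v) j =
      run mv (G.wa (tw G ω ch j).1 (fA G ω ch j h + j.gg)) (mv (ω.2 ch j.sl) v) := by
  have e : ∀ a : Bv (16 * P.r), a + a = 0 := fun a => funext fun i => CharTwo.add_self_eq_zero _
  have k := hG.key (ω.2 ch j.sl) (j.ty, j.cc, j.nn) h (run mv (G.wa j.ty h) v)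
  rw [← hG.add, e, hG.zero] at k
  rw [k, fz, fw, run_append, hj]
  refine Eq.trans ?_ (hG.add _ _ _ _)
  rw [fA, add_right_comm, e, zero_add]
  rfl

theorem fet_td (B : P.Idx → Prop) (s : P.Sl) (M : Bv (6 * P.r)) (h : Bv (16 * P.r)) :
    av (fun t => pr fun u : P.Uh => B (lf (fR G ω ch) h (at3 s M t + u))) =
      av fun c => pr fun u : P.Ud => B (at4 s M c (G.ro (ω.2 ch s) c h) + u) := by
  have e1 := av_cov (Uh_le (b := 0)) (.mk' iT fun _ _ => by ext1 <;> simp)
    (fun _ => by simp [mem_UT]) (fun u hu => ⟨u.th, by simpa [mem_Uh] using ⟨hu.1, hu.2.1⟩⟩)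
    (at3 s M 0) fun j => ind (B (lf (fR G ω ch) h j))
  have e2 := av_cov (U := P.UT 0) (U' := P.Ud) (fun _ q => ⟨q.1, q.2.1, by simp⟩)
    (.mk' (fun a : Bv (3 * P.r) × Bv (14 * P.r) => at4 0 0 a.1 a.2) fun _ _ => by ext1 <;> simp)
    (fun _ => by simp [mem_UT])
    (fun u hu => ⟨(u.cc, u.rh), by simpa [mem_Ud] using ⟨hu.1, hu.2.1⟩⟩)
    (at3 s M 0) fun j => ind (B (lf (fR G ω ch) h j))
  refine (av_congr fun t => av_congr fun u => ?_).trans (e1.trans (e2.symm.trans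
    ((av_congr fun a => av_congr fun u => ?_).trans (av_fst (β := Bv (14 * P.r))
      fun c => pr fun u : P.Ud => B (at4 s M c (G.ro (ω.2 ch s) c h) + u)))))
  · exact congrArg (fun i => ind (B (lf (fR G ω ch) h (i + u)))) (by ext1 <;> simp)
  · obtain ⟨u, h1, h2, h3, h4⟩ := u
    congr 2
    ext1 <;> simp [lf, fR, h1, h3, h4]

theorem mu1_sh (W : Z → P.Idx → Bv (16 * P.r) → Prop) (v : Z) (s : P.Sl) (M : Bv (6 * P.r))
    (g : Bv (16 * P.r)) : pr (fun a : Tk P.r × Bv (16 * P.r) =>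
      W (run mv (G.wa M (g + a.2)) v) (at3 s M a.1) (g + a.2)) = mu1 G mv W v s M :=
  pr_equiv ((Equiv.refl _).prodCongr (Equiv.addLeft g))
    fun a => W (run mv (G.wa M a.2) v) (at3 s M a.1) a.2

variable (P) in
theorem fetBS : P.FetBS := fun Mv Z _ G ω mv hG ch => by
  refine ⟨fun W hW v s M t h => ?_, fun B v s => ?_, fun B s => ?_⟩
  · refine (pr_congr fun u => ?_).trans ((av_sec (fun u => ((u.cc, u.nn), u.t2, u.gg))
      (fun a => { (0 : P.Idx) with cc := a.1.1, nn := a.1.2, t2 := a.2.1, gg := a.2.2 })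
      (fun _ => by simp [mem_Uh]) (fun _ _ => rfl) fun a => ind (W (run mv
        (G.wa (G.tw (ω.2 ch s) (M, a.1)).1 (G.A (ω.2 ch s) (M, a.1) h + a.2.2)) (mv (ω.2 ch s) v))
        (at3 (ω.1 ch s) (G.tw (ω.2 ch s) (M, a.1)).1 a.2.1)
        (G.A (ω.2 ch s) (M, a.1) h + a.2.2))).trans ((av_prod _).trans (av_congr fun a =>
          mu1_sh (G := G) (mv := mv) W (mv (ω.2 ch s) v) (ω.1 ch s) (G.tw (ω.2 ch s) (M, a)).1
            (G.A (ω.2 ch s) (M, a) h))))
    obtain ⟨u, hu⟩ := u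
    obtain ⟨h1, h2, h3⟩ := mem_Uh.1 hu
    have e := fz_eq (ω := ω) (ch := ch) hG (j := lf (fR G ω ch) h (at3 s M t + u)) (h := h)
      (by simp [lf, fR]) v
    rw [show (lf (fR G ω ch) h (at3 s M t + u)).ty = M by simp [lf, h2]] at e
    rw [e, (hW _).of_sub (at3_mem (fi G ω ch _))]
    simp [lf, tw, fA, h1, h2]
  · rw [TD, av_prod, av_prod]
    refine av_congr fun M => ?_
    rw [av_prod', av_prod']
    exact av_congr fun h => fet_td (G := G) (B (run mv (G.wa M h) v)) s M h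
  · rw [av_prod, pr_prod]
    refine av_congr fun z => Eq.trans (av_congr fun a => av_congr fun u => ?_)
      (av_cov (U := P.Ul) (U' := P.Ud) (fun _ q => q.1)
        (.mk' (fun a : Bv (6 * P.r) × Bv (3 * P.r) × Bv (14 * P.r) => at4 0 a.1 a.2.1 a.2.2)
          fun _ _ => by ext1 <;> simp) (fun _ => by simp [mem_Ul])
        (fun u hu => ⟨(u.ty, u.cc, u.rh), by simpa [mem_Ud, mem_Ul] using hu⟩) (at3 s 0 0)
        fun j => ind (B z j))
    exact congrArg (fun i => ind (B z (i + u))) (by ext1 <;> simp)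

end Par

end Pool.Agent.PP
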