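import Pool.Agent.MP_13199e_lc.PP.E.Base

/-! PROJECT PP, row E-FIN: the gain. -/

set_option autoImplicit false

namespace Pool.Agent.PP.Par

open Function Pool.Agent.MP_13199e_lc

variable {P : Par}

theorem le_card_av {α : Type} [Finite α] {f : α → ℝ} (h : ∀ a, 0 ≤ f a) (a : α) :
    f a ≤ Nat.card α * av f := by
  have := Fintype.ofFinite α
  have : Nonempty α := ⟨a⟩
  rw [av_eq, Nat.card_eq_fintype_card, mul_div_cancel₀ _ (by simp)]
  exact Finset.single_le_sum (fun b _ => h b) (Finset.mem_univ a)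

theorem av_flt (S : Set P.Lab) : av (fun s : P.Sl => flt P.Ul (at3 s 0 0) S) = pr (· ∈ S) := by
  have hb : Bijective fun a : P.Sl × P.Ul => at3 a.1 0 0 + (a.2 : P.Idx) := by
    refine ⟨fun a b e => ?_, fun j => ⟨(j.sl, ⟨j - at3 j.sl 0 0, by simp [mem_Ul]⟩), by simp⟩⟩
    have h : a.1 = b.1 := by simpa [mem_Ul.1 a.2.2, mem_Ul.1 b.2.2] using congrArg Ix.sl e
    have e' : at3 a.1 0 0 + (a.2 : P.Idx) = at3 b.1 0 0 + b.2 := e
    rw [h] at e'
    exact Prod.ext h (Subtype.ext (add_left_cancel e'))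
  rw [pr_prod, ← av_bij hb, av_prod]
  exact av_congr fun s => pr_prod _

theorem av_Ph {Z : Type} [Finite Z] (F : Set (Z × P.Lab)) : av (Ph F) = pr (· ∈ F) := by
  rw [pr_prod]
  exact (av_comm _).trans (av_congr fun z => av_flt (sF F z))

variable (P) in
theorem finS (hA : P.FetAS) (hB : P.FetBS) (hN : P.NodeS) (hC : P.CntS) : P.FinS := by
  intro Mv Z _ G ω mv C x H F Bad Lk hi hG hR hF
  have y0 := P.y_pos
  have y1 := P.hy
  have p0 := pr_nonneg (· ∈ F)
  have k1 : ∀ s, Ph F s ≤ 1 / (P.y : ℝ) ^ 77 := fun s => by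
    refine (le_card_av (f := Ph F) (fun s => av_nonneg fun z => flt_nonneg _ _ (sF F z)) s).trans ?_
    rw [av_Ph, P.cS, Nat.cast_pow]
    refine (mul_le_mul_of_nonneg_left hF (by positivity)).trans_eq ?_
    rw [show 414 = 337 + 77 from rfl, pow_add]
    generalize 337 = n
    field_simp
  have k2 : ∀ ch s, pr (fun v => 1 / 1000 ≤ TD G ω mv ch (Ev G ω mv H F Lk ch) s v) ≤
      12 * 10 ^ 6 / (P.y : ℝ) ^ 677 * (Ph F s + Ph F (ω.1 ch s)) := fun ch s => by
    refine (hG.gain (ω.2 ch s) (Dd (Ev G ω mv H F Lk ch) s) ((P.y : ℝ) ^ 752) (1 / 1000) _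
      (by positivity) (by rw [← pow_mul]; exact_mod_cast P.gain) (by norm_num)
      (fun _ _ _ _ => ⟨pr_nonneg _, pr_le_one _⟩)
      (((hB Mv Z G ω mv hG ch).dd _ s).trans_le
        (hC Mv Z G ω mv C x H F Bad Lk ch (hA Mv Z G ω mv hi ch) hR s)) ?_).trans_eq ?_
    · refine (mul_le_mul_of_nonneg_left (add_le_add (k1 _) (k1 _)) (by positivity)).trans ?_
      rw [show 77 = 75 + 2 from rfl, pow_add]
      generalize 75 = n
      field_simp
      nlinarith
    · rw [show 752 = 75 + 677 from rfl, pow_add]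
      generalize 75 = n
      generalize 677 = m
      field_simp
      ring
  have k3 : ∀ s, pr (fun v => ¬GateOk ω mv (C v s) (dec G mv H) v s) ≤
      ∑ ch : Ch, 12 * 10 ^ 6 / (P.y : ℝ) ^ 677 * (Ph F s + Ph F (ω.1 ch s)) := fun s =>
    ((pr_mono fun v hv => by_contra fun k => hv (hN Mv Z G ω mv C x H F Bad Lk hG
      (fun ch => ⟨hA Mv Z G ω mv hi ch, hB Mv Z G ω mv hG ch⟩) hR v s fun ch =>
        not_le.1 fun u => k ⟨ch, u⟩)).trans (pr_exists_le _)).trans
      (Finset.sum_le_sum fun ch _ => k2 ch s)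
  refine ((pr_prod' _).trans_le (av_mono k3)).trans ?_
  simp only [av_sum, av_mul, av_add, av_equiv (ω.1 _) (Ph F), av_Ph, Finset.sum_const,
    Finset.card_univ, Fintype.card_fin, nsmul_eq_mul]
  rw [show 677 = 674 + 3 from rfl, pow_add]
  have y3 : ((2 : ℝ) ^ 20) ^ 3 ≤ (P.y : ℝ) ^ 3 := pow_le_pow_left₀ (by positivity) y1 3
  generalize 674 = n
  generalize pr (· ∈ F) = t at p0
  field_simp
  push_cast
  nlinarith

end Pool.Agent.PP.Par
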