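import Pool.Agent.MP_13199e_lc.PP.E.Spec

/-! PROJECT PP, row GLOB: the closed fragment. -/

set_option autoImplicit false

namespace Pool.Agent.PP.Par

open Function

variable (P : Par)

theorem fi_inj {Mv : Type} (G : Geo P.r Mv) (ω : Wir Mv P.Sl) (ch : Ch) :
    Injective (fi G ω ch) := fun a b h => by
  simp only [fi, Ix.mk.injEq] at h
  obtain ⟨h0, h1, h2, h3, h4, h5, h6, h7, h8, h9, h10, h11, h12, h13, h14, h15, h16⟩ := h
  have e : a.sl = b.sl := (ω.1 ch).injective h0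
  have k : tw G ω ch a = tw G ω ch b := Prod.ext h1 (Prod.ext h9 h10)
  simp only [tw, e, EmbeddingLike.apply_eq_iff_eq, Prod.mk.injEq] at k
  exact Ix.ext e k.1 h12 k.2.1 k.2.2 h11 h2 h13 h14 h3 h4 h5 h6 h7 h8 h15 h16

theorem globS (h : P.SiteS) : P.GlobS := by
  intro Mv Λ T G ω
  let wi : Ch → (P.glob T G).Wi := fun ch => ⟨(fun l => fw G ω ch l.1,
    .ofBijective (Prod.map (fi G ω ch) id) (Finite.injective_iff_bijective.1
      ((P.fi_inj G ω ch).prodMap injective_id))), fun l => ⟨by simp [fw, tw, fp], by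
        have := G.lc (ω.2 ch l.1.sl) l.1.ty l.1.rh
        have := G.la (tw G ω ch l.1).1 l.1.gg
        simp only [fw, List.length_append]
        omega⟩⟩
  obtain ⟨Q, out, h1, h2⟩ := ((Real.copy (P.glob T G) (κ := Ch × Fin P.w) Prod.snd
    (fun k => wi k.1) fun _ => false).comp ((h (fA G ω) (fR G ω) fun ch =>
      ⟨fun j u hu => by simp [fA, hu.1, hu.2.1, hu.2.2.1, hu.2.2.2.1],
        fun j u hu => by simp [fR, hu.1, hu.2.2.1]⟩).lift (P.glob T G) (fun e => T.Z e.1)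
      (fun _ z l => (z, l)) (fun e z a => e.2 (run (T.mv e.1) (G.wa a.1 a.2) z))
      (fun b => ⟨(fun _ => [], b), fun _ => ⟨rfl, Nat.zero_le _⟩⟩) (fun _ _ _ => rfl)
      fun _ _ _ _ => rfl)).close
  refine ⟨Q, out, h1.trans ?_, fun e v F k => ?_⟩
  · have a := P.hyp.hy
    have b := P.hyp.hw
    have c : P.y ^ 1 ≤ P.y ^ 166 := Nat.pow_le_pow_right (by omega) (by omega)
    simp only [Nat.card_eq_fintype_card, Fintype.card_prod, Fintype.card_fin]
    rw [pow_succ _ 166]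
    nlinarith
  obtain ⟨o, ⟨x, k1, k2⟩, k3⟩ := h2 e v F k
  choose Bad Lk k4 using fun z => k2 z (fun b l => v (out b) (z, l)) fun p hp a u b =>
    k3 (z, p) hp b _ (u b)
  exact ⟨fun z i l => x i (z, l), Bad, Lk, fun z l hl ch a u b =>
    k1 (z, l) hl (ch, b) _ ((congrArg (rd false) (u b)).trans (rd_ofB _ _)), k4⟩

end Pool.Agent.PP.Par
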