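import Pool.Agent.MP_13199e_lc.PP.E.Base

/-! PROJECT PP, row HOLD: clean-up and majority over the replicates. -/

set_option autoImplicit false

namespace Pool.Agent.PP.Par

open Function

variable {P : Par}

theorem hold_cost : P.y ^ 161 + P.w * (3 * (Nat.card (Fin (P.y ^ 62)) + 2) ^ 2) ≤ P.y ^ 162 := by
  have hy := P.hyp.hy
  have a : 2 ≤ P.y ^ 62 := le_trans (by omega) (Nat.le_self_pow (by norm_num) _)
  have b : P.y ^ 126 ≤ P.y ^ 161 := Nat.pow_le_pow_right (by omega) (by norm_num)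
  have c : P.w * (3 * (P.y ^ 62 + 2) ^ 2) ≤ P.y ^ 126 :=
    calc _ ≤ P.y * (3 * (2 * P.y ^ 62) ^ 2) := by
          have := P.hyp.hw
          gcongr
          omega
      _ = 12 * P.y ^ 125 := by ring
      _ ≤ _ := by rw [pow_succ' _ 125]; exact Nat.mul_le_mul_right _ (by omega)
  have := Nat.mul_le_mul_right (P.y ^ 161) hy
  rw [Nat.card_fin, pow_succ' _ 161]
  omega

theorem holdS (K : P.KitP) (hM : MajS) : P.HoldS := by
  obtain ⟨γ, hγ⟩ := smp2 P.Uh
  refine ((K.cl (P.Us (P.k + 1))).comp (hM _ _ (Fin (P.y ^ 62)) _ P.enc P.loc fun s =>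
    (Equiv.addRight (γ s : P.Idx)).prodCongr (.refl _))).mono hold_cost ?_
  rintro _ x o F ⟨c, hc, hm⟩ H hH j q Gd hI hF hG hx
  have hy := P.hyp.hy
  have y0 := P.hy
  have y1 := P.y_pos
  have : Nonempty (Fin (P.y ^ 62)) := ⟨⟨0, by positivity⟩⟩
  have hd : Ld (dd P.y) (mlp q : P.X → P.E) := (ld_y q).mono (by
    have : P.y ^ 2 ≤ P.y ^ 6 := Nat.pow_le_pow_right (by omega) (by norm_num)
    exact Nat.le_sub_of_add_le (by nlinarith))
  let Wg : P.Lab → Prop := fun l => Gd l.1 ∧ ¬Is P.enc c l (mlp q l.2.1)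
  let T2 : P.Idx → Prop := fun i => 1 / 8 + 1 / 4 ≤ pr fun s => ¬Gd (i + γ s)
  let D : P.Idx → ℝ := fun i => flt P.Uf i F + 8 * av fun s => ob P.Uf (i + γ s) Wg
  have key : ∀ l : P.Lab, ¬Is P.enc H l (mlp q l.2.1) → l ∈ F ∨ T2 l.1 ∨
      1 / 8 ≤ pr fun s => Wg (l.1 + γ s, l.2) := fun l h => by
    by_contra k
    simp only [not_or, T2, not_le] at k
    refine h (hH l k.1 _ (hm l k.1 _ ?_))
    have := (pr_not fun s => Is P.enc c (l.1 + γ s, l.2) (mlp q l.2.1)).ge.trans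
      (pr_le_add (p := fun s => ¬Gd (l.1 + γ s)) (q := fun s => Wg (l.1 + γ s, l.2))
        fun s e => (em' _).imp_right fun g => ⟨g, e⟩)
    change 1 / 2 < pr fun s => Is P.enc c (l.1 + γ s, l.2) (mlp q l.2.1)
    linarith [k.2.1, k.2.2]
  have h2 : ∀ u : P.Uh, pr (fun a : P.Uf => T2 (j + u + a)) ≤ 2 / (P.y : ℝ) ^ 60 := fun u => by
    have hT : Inv (P.Us (P.k + 1)) fun i => ind (T2 i) := fun i a ha => by
      simp only [T2, add_right_comm i a, hI _ a ha]
    refine ((av_cover hT P.Uf.subtype (fun a => Uf_le a.2) (fun a ha => ⟨⟨{ a with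
      cc' := 0, nn' := 0, gg' := 0, rh' := 0 }, ?_⟩, ?_⟩) _).trans
        (pr_sh u.2 j T2)).trans_le ?_
    · simpa [mem_Uf, mem_Uh] using ha
    · simp [mem_UU]
    have := hγ.up hG (ξ := 1 / 4) (by norm_num)
    simp only [AddSubgroup.coe_add, ← add_assoc] at this
    refine this.trans ?_
    rw [div_le_iff₀ (by norm_num)]
    exact (mul_le_mul_of_nonneg_left hG (sq_nonneg _)).trans_eq (by field_simp; norm_num)
  have h3 : ∀ u : P.Uh, err P.enc H P.Uf (j + u) (mlp q) ≤ 2 / (P.y : ℝ) ^ 60 + D (j + u) :=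
    fun u => by
    refine (pr_le_add fun l e => key _ e).trans ((add_le_add le_rfl ((pr_or _ _).trans
      (add_le_add ((pr_fst fun a : P.Uf => T2 (j + u + a)).trans_le (h2 u))
        (markov (fun _ => pr_nonneg _) (by norm_num))))).trans_eq ?_)
    rw [← pr_comm]
    simp only [D, flt, ob, add_right_comm _ _ (γ _ : P.Idx)]
    ring
  have h4 : ob P.Uh j Wg ≤ (P.y : ℝ) ^ 10 * flt P.Uh j F := by
    rw [flt, ← ob_avg Us_le, ← ob_avg Us_le, ← av_mul]
    refine av_mono fun u => ?_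
    by_cases g : Gd (j + u)
    · exact (ob_mono fun _ _ _ e => e.2).trans (hc _ _ (hx u u.2 g).1 hd (hx u u.2 g).2)
    · exact (pr_of_not fun (a : P.Us (P.k + 1) × _) e => g (hI _ _ a.1.2 ▸ e.1)).trans_le
        (mul_nonneg (by positivity) (ob_nonneg _ _ _))
  have f0 := flt_nonneg P.Uh j F
  have y2 : (1 : ℝ) ≤ P.y ^ 10 := one_le_pow₀ (by linarith)
  have h5 : av (fun u : P.Uh => D (j + u)) ≤ 9 * (P.y : ℝ) ^ 10 * flt P.Uh j F := by
    simp only [D, av_add, av_mul, fun (u : P.Uh) s => add_right_comm j u (γ s)]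
    rw [av_comm]
    simp only [flt, ob_avg Uf_le, ob_add (γ _).2, av_const] at *
    nlinarith
  have y3 : (2 : ℝ) ^ 20 ≤ P.y ^ 50 := y0.trans (le_self_pow₀ (by linarith) (by norm_num))
  have h6 : 2 / (P.y : ℝ) ^ 60 ≤ e3 P.y / 4 := by
    unfold e3
    field_simp
    nlinarith
  refine ⟨(ob_avg Uf_le j _).ge.trans ((av_mono h3).trans ?_), (pr_mono fun (u : P.Uh) e =>
    show e3 P.y / 4 ≤ D (j + u) by linarith [h3 u]).trans ((markov (fun _ => add_nonneg
      (flt_nonneg _ _ _) (mul_nonneg (by norm_num) (av_nonneg fun _ => ob_nonneg _ _ _)))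
      (by unfold e3; positivity)).trans ?_)⟩
  · rw [av_add, av_const]
    have : 9 * (P.y : ℝ) ^ 10 * e0 P.y ≤ e3 P.y / 4 * 3 := by
      unfold e0 e3
      field_simp
      nlinarith
    nlinarith [mul_le_mul_of_nonneg_left hF (show (0 : ℝ) ≤ 9 * P.y ^ 10 by positivity)]
  · rw [div_le_iff₀ (by unfold e3; positivity)]
    refine h5.trans ?_
    rw [mul_right_comm _ (flt _ _ _)]
    refine mul_le_mul_of_nonneg_right ?_ f0
    unfold e3
    field_simp
    nlinarith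

end Pool.Agent.PP.Par
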