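import Pool.Agent.MP_13199e_lc.PP.E.Base

/-! PROJECT PP, block E: a node that sees little damage is satisfied. -/

set_option autoImplicit false

namespace Pool.Agent.PP

theorem rd_q4 {fl b : Bool} {t : ℝ} (h : rd fl (q4 t) = some b) :
    (if fl = b then 4 / 5 else 1 / 2 : ℝ) ≤ bif b then t else 1 - t := by
  unfold q4 at h
  split_ifs at h with h1 h2 h3 <;> cases fl <;> cases b <;> simp [rd] at h ⊢ <;> linarith

theorem q4_of {c : Bool} {t : ℝ} (h : 4 / 5 ≤ bif c then t else 1 - t) : q4 t = ofB c := by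
  unfold q4
  cases c
  · exact if_pos (by simp at h; linarith)
  · simp only [cond_true] at h
    rw [if_neg (by linarith), if_neg (by linarith), if_neg (by linarith)]
    rfl

theorem pr_iff {α : Type} [Finite α] [Nonempty α] (p : α → Prop) (b : Bool) :
    pr (fun a => ¬(p a ↔ b = true)) = 1 - bif b then pr p else 1 - pr p := by
  cases b
  · simp
  · simpa using pr_not p

namespace Par

variable {P : Par} {Mv Z : Type} {G : Geo P.r Mv} {ω : Wir Mv P.Sl} {mv : Mv → Z → Z}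
  {C : Z → P.Sl → Gate} {x : Z → Ch × Fin P.w → P.Lab → V4} {H : Z → P.Wd} {F : Set (Z × P.Lab)}
  {Bad : Z → Ch → P.Idx → Prop} {Lk : Z → P.Idx → Prop} {ch : Ch}

theorem node_gd (hA : FetA G ω mv ch) (hR : RoundP G ω mv C x H F Bad Lk) {z : Z} {i : P.Idx}
    {h : Bv (16 * P.r)} {b : Bool} (h1 : ¬Ev G ω mv H F Lk ch z i) (h2 : ¬Bad z ch i)
    (h3 : Lk (fz G ω mv ch z i) (fi G ω ch i))
    (h4 : wst (H (fz G ω mv ch z i)) (fi G ω ch i) (fA G ω ch i h + i.gg) ↔ b = true) :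
    Gd (fA G ω) (x z) (sF F z) (Bad z) ch h b i := by
  simp only [Ev, not_or, not_not, not_and, not_lt] at h1
  obtain ⟨k1, -, k3, k4⟩ := h1
  refine ⟨h2, k1, _, ?_, h4⟩
  have y1 := P.hy
  have e1 := (hA.fib (fun z' l => ¬Is P.enc (H z') l
    (mlp (wst (H (fz G ω mv ch z i)) (fi G ω ch i)) l.2.1)) z i).trans_le (k4 h3 k3)
  have e2 := (ob_sub (sub_a (P := P) (a := 0) (b := 0)) i (· ∈ sF F z)).trans
    (mul_le_mul_of_nonneg_left (k1 0 (Nat.zero_le _)) (Nat.cast_nonneg 2))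
  have e4 : ((2 : ℕ) : ℝ) * (1 / (P.y : ℝ) ^ 73) ≤ e3 P.y / 2 := by
    rw [e3, mul_one_div, div_div, div_le_div_iff₀ (by positivity) (by positivity)]
    have : (P.y : ℝ) ^ 9 * P.y ≤ P.y ^ 73 := by
      rw [← pow_succ]
      exact pow_le_pow_right₀ (by linarith) (by norm_num)
    have : (0 : ℝ) < (P.y : ℝ) ^ 9 := by positivity
    push_cast
    nlinarith
  refine (ob_le_add fun u _ l k => ?_).trans ((add_le_add (e2.trans e4) e1).trans_eq (by ring))
  exact by_contra fun n => k (hR.fet z _ (not_or.1 n).1 ch _ (not_not.1 (not_or.1 n).2))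

theorem node_sup (hA : FetA G ω mv ch) (hB : FetB G ω mv ch) (hR : RoundP G ω mv C x H F Bad Lk)
    {v : Z} {s : P.Sl} {M : Bv (6 * P.r)} {t : Tk P.r} {h : Bv (16 * P.r)} {fl : Bool}
    (h1 : (av (fun a : Bv (3 * P.r) × Bv (2 * P.r) => mu1 G mv (fun z => wst (H z))
      (mv (ω.2 ch s) v) (ω.1 ch s) (G.tw (ω.2 ch s) (M, a)).1) -
      av (mu1 G mv (fun z => wst (H z)) (mv (ω.2 ch s) v) (ω.1 ch s))) ^ 2 < 1 / 400)
    (h2 : pr (fun u : P.Uh => Ev G ω mv H F Lk ch (run mv (G.wa M h) v)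
      (lf (fR G ω ch) h (at3 s M t + u))) < 3 / 100) :
    Sup (fA G ω) (fR G ω) (x (run mv (G.wa M h) v)) (sF F (run mv (G.wa M h) v))
      (Bad (run mv (G.wa M h) v)) (at3 s M t) h (ch, fl) (rd fl (inp ω mv (dec G mv H) v s ch)) := by
  intro b hb
  have k0 := rd_q4 hb
  have k1 := hB.op (fun z => wst (H z)) (fun z => wst_inv _) v s M t h
  have k2 := hA.th (fun z j => ¬Lk z j) _ (fun z => (hR.site z).luck) (run mv (G.wa M h) v)
    (at3 s M t) h
  have k3 := hA.nu _ _ ((hR.site (run mv (G.wa M h) v)).bad ch) (at3 s M t) h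
  have k4 : 1 / (P.y : ℝ) ≤ 1 / 100 := one_div_le_one_div_of_le (by norm_num) (by linarith [P.hy])
  have k5 := abs_lt_of_sq_lt_sq' (h1.trans_eq (by norm_num : (1 / 400 : ℝ) = (1 / 20) ^ 2))
    (by norm_num)
  have k6 := (pr_not _).ge.trans ((pr_mono fun u k => by_contra fun n => k (by
    simp only [not_or, not_not] at n
    exact node_gd (h := h) (b := b) hA hR n.1 n.2.1 n.2.2.1 n.2.2.2)).trans
    ((pr_or _ _).trans (add_le_add h2.le ((pr_or _ _).trans (add_le_add (k3.trans k4)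
      ((pr_or _ _).trans (add_le_add k2 (pr_iff _ b).le)))))))
  rw [k1] at k6
  cases b <;> cases fl <;> simp at k0 k6 ⊢ <;> linarith [k5.1, k5.2]

variable (P) in
theorem nodeS : P.NodeS := by
  intro Mv Z _ G ω mv C x H F Bad Lk hG hF hR v s hT c hc
  have r1 : (80000 : ℝ) ≤ 2 ^ P.r := by
    have : (P.y : ℝ) ^ 1504 ≤ 2 ^ P.r := by exact_mod_cast P.gain
    have := le_self_pow₀ (a := (P.y : ℝ)) (n := 1504) (by linarith [P.hy]) (by norm_num)
    linarith [P.hy]
  have l1 := fun ch => (pr_fst (β := Tk P.r × Bv (16 * P.r)) _).trans_le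
    ((markov (fun _ => sq_nonneg _) (c := 1 / 400) (by norm_num)).trans
      ((div_le_div_of_nonneg_right (G.link (ω.2 ch s) (mu1 G mv (fun z => wst (H z))
        (mv (ω.2 ch s) v) (ω.1 ch s)) fun M => ⟨pr_nonneg _, pr_le_one _⟩) (by norm_num)).trans
        (show _ ≤ (1 / 100 : ℝ) by
          rw [div_div, div_le_div_iff₀ (by positivity) (by norm_num)]; linarith)))
  have l2 := fun ch => (markov (fun _ => pr_nonneg _) (c := 3 / 100) (by norm_num)).trans
    (div_le_div_of_nonneg_right (((hF ch).2.td _ v s).trans_lt (hT ch)).le (by norm_num))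
  have l3 : pr (fun a : Bv (6 * P.r) × Tk P.r × Bv (16 * P.r) =>
      ¬Lk (run mv (G.wa a.1 a.2.2) v) (at3 s a.1 a.2.1)) ≤ 1 / 100 := by
    rw [pr_prod]
    refine av_le fun M => (pr_prod' _).trans_le (av_le fun h => le_of_eq_of_le
      (pr_congr fun t => ?_) ((hR.site (run mv (G.wa M h) v)).luck (at3 s M 0)))
    rw [show at3 s M 0 + iT t = at3 s M t by ext1 <;> simp]
  have key := (pr_iff (fun a : Bv (6 * P.r) × Tk P.r × Bv (16 * P.r) =>
    wst (H (run mv (G.wa a.1 a.2.2) v)) (at3 s a.1 a.2.1) a.2.2) c).ge.trans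
    ((pr_mono fun a k => by_contra fun n => k (by
      simp only [not_or, not_not, not_le] at n
      obtain ⟨n1, n2, n3, n4, n5⟩ := n
      have e : C (run mv (G.wa a.1 a.2.2) (run mv (G.wa a.1 a.2.2) v)) s = C v s := by
        rw [← hG.add, show a.2.2 + a.2.2 = 0 from funext fun i => CharTwo.add_self_eq_zero _,
          hG.zero]
      obtain ⟨u, hu⟩ := exists_not_of_pr_lt (n2.trans (by norm_num))
      have lt : Light (sF F (run mv (G.wa a.1 a.2.2) v)) (at3 s a.1 a.2.1) := by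
        have := not_not.1 (not_or.1 (not_or.1 hu).2).1
        rwa [lf, light_inv _ _ _ (iR_mem' _), light_inv _ _ _ u.2] at this
      refine (hR.site _).forc _ n5 lt _ _ _ c ?_ ?_ (by simpa only [at3_ty, at3_sl, e] using hc)
      · simpa only [at3_ty, at3_sl, e] using node_sup (hF _).1 (hF _).2 hR n1 n2
      · simpa only [at3_ty, at3_sl, e] using node_sup (hF _).1 (hF _).2 hR n3 n4)).trans
    ((pr_or _ _).trans (add_le_add (l1 (C v s).2.1.1) ((pr_or _ _).trans (add_le_add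
      (l2 (C v s).2.1.1) ((pr_or _ _).trans (add_le_add (l1 (C v s).2.2.1) ((pr_or _ _).trans
        (add_le_add (l2 (C v s).2.2.1) l3)))))))))
  rw [pr_prod] at key
  exact q4_of (by unfold mu1; linarith)

end Par

end Pool.Agent.PP
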