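import Pool.Agent.MP_13199e_lc.PP.E.Spec
import Pool.Agent.MP_13199e_lc.PP.C.Smp

/-! PROJECT PP, block E: the parameters exist. -/

set_option autoImplicit false

namespace Pool.Agent.PP

open Function

theorem ParX.bv (n : ℕ) : Nat.card (Bv n) = 2 ^ n := by simp

theorem ParX.two {ι : Type} {A : Type} [Add A] [Zero A] (h : ∀ a : A, a + a = 0) (f : ι → A) :
    f + f = 0 := funext fun i => h (f i)

theorem ParX.mono {n s : ℕ} {a b : ℝ} (h : HasSmp n s a) (h0 : 0 ≤ a) (k : a ≤ b) :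
    HasSmp n s b := fun G _ _ h2 hn => (h G h2 hn).imp fun _ e => e.mono h0 k

theorem ParX.main (h1 : SmpS) (h2 : LdS) {l r j p y : ℕ} (hy : y = 2 ^ l) (hr : r = 1504 * l)
    (hl : 20 ≤ l) (hp : 372 * (r * l) + 364 * r + 433 * l + 180 + (p + 1) = 6 * r * j)
    (hn : 1024 * (6 * r * j) ≤ y) (hf : 10 ^ 10 * r ^ 3 * j ^ 2 + 1 ≤ y) : ParS := by
  have : NeZero (6 * l) := ⟨by omega⟩
  have cE : Nat.card (GaloisField 2 (6 * l)) = 2 ^ (6 * l) := GaloisField.card 2 _ (by omega)
  have pw : ∀ k, 2 ^ (k * l) = y ^ k := fun k => by rw [hy, ← pow_mul, mul_comm]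
  have cL : Nat.card (Lb (Ix r (Bv (337 * l)) (Bv (3 * l)) (Bv (30 * l)) (Bv (p + 1)))
      (GaloisField 2 (6 * l)) (16 * r)) = 2 ^ (6 * r * j) := by
    rw [Nat.card_prod, Nat.card_congr Ix.eqv]
    simp only [Nat.card_prod, Nat.card_fun, Nat.card_zmod, Nat.card_fin, cE, ← pow_mul, ← pow_add]
    rw [← hp]
    congr 1
    ring
  have z : ∀ a : ZMod 2, a + a = 0 := by decide
  have c2 : ∀ a : GaloisField 2 (6 * l), a + a = 0 := CharTwo.add_self_eq_zero
  have y0 : (0 : ℝ) < y := by rw [hy]; positivity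
  have hn' : (1024 : ℝ) * (6 * r * j : ℕ) ≤ y := by exact_mod_cast hn
  have n0 : (0 : ℝ) ≤ (6 * r * j : ℕ) := Nat.cast_nonneg _
  have f4 : ∀ k, 4 ^ (k * l) = y ^ (2 * k) := fun k => by
    rw [← pw, mul_assoc, pow_mul 2 2]; norm_num
  have pR : ∀ k, (2 : ℝ) ^ (k * l) = y ^ k := fun k => by exact_mod_cast pw k
  obtain ⟨enc⟩ : Nonempty (GaloisField 2 (6 * l) ≃ (Fin (6 * l) → Bool)) :=
    Finite.card_eq.1 (by simp [cE])
  refine ⟨{ y := y, r := r, w := 6 * l, E := _, Sl := Bv (337 * l), Ver := Bv (3 * l)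
            Pz := Bv (30 * l), Pad := Bv (p + 1), enc := enc, hb := fun _ => 1
            hb0 := fun h => one_ne_zero (congrFun h 0)
            hyp := ⟨hy ▸ Nat.pow_le_pow_right two_pos hl, by omega, by omega, cE.trans (pw 6), c2,
              fun a => ?_, cL ▸ Nat.pow_le_pow_right two_pos (by omega), ?_, ?_, h2 _ _ c2⟩
            r10 := by omega, hr := by omega, cS := (ParX.bv _).trans (pw _)
            cV := (ParX.bv _).trans (pw _), cZ := (ParX.bv _).trans (pw _)
            gain := by rw [← pw, hr] }, j, Nat.pos_of_ne_zero (by rintro rfl; omega), cL, hf⟩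
  · ext1 <;> first | exact ParX.two z _ | exact ParX.two (ParX.two z) _
  · rw [cL, ← f4 1]
    refine ParX.mono (h1 _ _ (by omega)) (by positivity) ?_
    rw [pR, pow_one, div_le_div_iff₀ y0 (by norm_num)]
    linarith
  · rw [cL, ← f4 31]
    refine ParX.mono (h1 _ _ (by omega)) (by positivity) ?_
    rw [pR, div_le_div_iff₀ (by positivity) (by positivity), one_mul, pow_succ' _ 30]
    exact mul_le_mul_of_nonneg_right (by linarith) (by positivity)

theorem parS (h1 : SmpS) (h2 : LdS) : ParS :=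
  ParX.main h1 h2 (l := 128) (r := 192512) (j := 8064) (p := 77719243) (y := 2 ^ 128) rfl
    (by norm_num) (by norm_num) (by norm_num) (by norm_num) (by norm_num)

end Pool.Agent.PP
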