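import Pool.Agent.MP_13199e_lc.PP.E.Base

/-! PROJECT PP, block E: the round. -/

set_option autoImplicit false

namespace Pool.Agent.PP.Par

open Function

variable (P : Par)

theorem fp_fp (l : P.Lab) : P.fp (P.fp l) = l := by
  simp only [fp, add_assoc, P.hyp.two, add_zero]

theorem fp_ne (l : P.Lab) : P.fp l ≠ l := fun h =>
  P.hb0 (by simpa [fp] using congrArg (fun a : P.Lab => a.1.pad) h)

theorem rndS (hc : CompS) (hG : P.GlobS) (hF : P.FinS) : P.RndS := by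
  rintro Mv Λ T G R ⟨e⟩ hy hO hR
  have y0 := P.y_pos
  have y1 := P.hyp.hy
  choose ls hl hls using fun W : (P.glob T G).Wi => hR (fun l => W.1.1 (e l))
    (e.trans (W.1.2.trans e.symm)) (fun l => e.symm (P.fp (e l))) fun l =>
      ⟨by simp [fp_fp], fun h => P.fp_ne (e l) (e.symm_apply_eq.1 h), by simp [(W.2 _).1],
        (W.2 _).2⟩
  let cv : Mv × (Λ → Bool) → Mv × (P.Cx × P.Lab → Bool) := fun a => (a.1, fun c => a.2 (e.symm c.2))
  choose Q out hQ hS using hG Mv Λ T G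
  choose ω' Ψ o hC using fun ω => hc (P.Cx × P.Lab) _ Mv P.Sl (Q ω) T.m0 R
    (fun W => (ls W).map cv) (fun W => by simpa using hl W) (by
      rw [P.cS]
      calc _ ≤ P.y * (P.y ^ 167 * P.y) ^ 2 := Nat.mul_le_mul (by omega)
            (Nat.pow_le_pow_left (Nat.mul_le_mul (hQ ω) hy) 2)
        _ = _ := by ring)
  refine ⟨Bv (6 * P.r) × Bv (16 * P.r), inferInstance, fun a => G.wa a.1 a.2, ω',
    fun ω c l => Ψ ω (c, e l), fun ω X s => q4 (av fun M => pr fun a : Tk P.r × Bv (16 * P.r) =>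
      wst (fun b l => X (M, a.2) (e.symm l) (o ω (out ω b))) (at3 s M a.1) a.2),
    fun k ω C C' x h1 h2 => ?_⟩
  let ctx : T.Z (k + 1) → P.Cx × P.Lab := fun y =>
    (fun a => C (run (T.mv k) (G.wa a.1 a.2) (T.sp k y).1), e (T.sp k y).2)
  obtain rfl : C' = fun y => Ψ ω (ctx y) := funext h1
  have e1 : ∀ a, lay (T.mv (k + 1)) ctx (cv a) = lay (T.mv (k + 1)) (fun y => (T.sp k y).2) a :=
    fun a => funext fun y => by simp [lay, ctx, cv]
  obtain ⟨F, f1, f2⟩ := hC ω _ (T.mv (k + 1)) ctx (T.id0 _) (fun W a ha => by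
    obtain ⟨b, hb, rfl⟩ := List.mem_map.1 ha
    exact e1 b ▸ (hls W k).1 b hb) x
  let ψ : T.Z k × P.Lab ≃ T.Z (k + 1) := ((Equiv.refl _).prodCongr e.symm).trans (T.sp k).symm
  have e2 : ∀ p, T.sp k (ψ p) = (p.1, e.symm p.2) := fun p => (T.sp k).apply_symm_apply _
  have e3 : ∀ W p, run (lay (T.mv (k + 1)) ctx) ((ls W).map cv) (ψ p) =
      ψ ((P.glob T G).rn ⟨k, C⟩ W p) := fun W p => (T.sp k).injective (by
    have := (hls W k).2 (ψ p)
    simp only [run, List.foldl_map, e1] at this ⊢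
    rw [this, e2, e2]
    simp)
  have e4 : ∀ p, ctx (ψ p) = (P.glob T G).ctx ⟨k, C⟩ p := fun p => by simp [ctx, e2]
  have e5 : ∀ u q, Sum.elim Empty.elim (fun a p => x p (o ω a)) u (ψ q) =
      Sum.elim Empty.elim (fun a p => x (ψ p) (o ω a)) u q := fun u q => by
    rcases u with u | u
    exacts [u.elim, rfl]
  obtain ⟨x', Bad, Lk, hr⟩ := hS ω ⟨k, C⟩ (fun a p => x (ψ p) (o ω a)) (ψ ⁻¹' F) fun p hp a => by
    simpa only [e3, e4, e5] using f2 (ψ p) hp a
  have e6 : pr (· ∈ ψ ⁻¹' F) = pr (· ∈ F) := pr_equiv ψ (· ∈ F)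
  rw [P.cS, Nat.cast_pow, ← pow_mul, ← e6] at f1
  refine (hF Mv _ G ω (T.mv k) C x' _ _ Bad Lk (T.inj k) (hO k) hr (f1.trans
    ((mul_le_mul_of_nonneg_left h2 (by positivity)).trans ?_))).trans ?_
  · rw [mul_one_div, div_le_div_iff₀ (by positivity) (by positivity), ← pow_add, one_mul]
    exact pow_le_pow_right₀ (by linarith [P.hy]) (by norm_num)
  · refine (div_le_div_of_nonneg_right f1 (by positivity)).trans_eq ?_
    rw [mul_comm 2, mul_div_mul_left _ _ (by positivity)]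

end Pool.Agent.PP.Par
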