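import Pool.Agent.MP_13199e_lc.PP.E.Base

/-! PROJECT PP, block E, row SITE: the facts at one site. -/

set_option autoImplicit false

namespace Pool.Agent.PP

open Function Pool.Agent.MP_13199e_lc

theorem gv_iff {g : Gate} {β : Ch × Bool → Prop} {a₁ a₂ : Option Bool} {b : Bool}
    (h1 : ∀ c, a₁ = some c → (β g.2.1 ↔ c = true)) (h2 : ∀ c, a₂ = some c → (β g.2.2 ↔ c = true))
    (h : ∀ a' b', Fits a₁ a' → Fits a₂ b' → tt g.1 a' b' = b) : gv g β ↔ b = true := by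
  rw [gv, h _ _ (fun c e => Bool.eq_iff_iff.2 (by simpa using h1 c e))
    fun c e => Bool.eq_iff_iff.2 (by simpa using h2 c e)]

/-- The counted bit fits a supported read. -/
theorem cut_fit {Ω σ : Type} [AddCommGroup Ω] [Finite Ω] [Finite σ] {γ : σ → Ω}
    (hγ : Smp γ (1 / 1024)) (p : Ω → Prop) (fl : Bool) (a : Option Bool)
    (h : ∀ b, a = some b → (if fl = b then 7 / 10 else 2 / 5 : ℝ) ≤ pr fun u => p u ↔ b = true) :
    pr (fun u => ¬∀ c, a = some c → ((cut fl ≤ pr fun s => p (u + γ s)) ↔ c = true)) ≤ 1 / 10 := by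
  refine (pr_mono fun u k => ?_).trans ((hγ.tail p (ξ := 1 / 20) (by norm_num)).trans ?_)
  · refine by_contra fun e => k fun c hc => ?_
    have := h c hc
    have e' := abs_lt.1 (not_le.1 e)
    have n := pr_not p
    cases c <;> cases fl <;> simp [cut] at this ⊢ <;> linarith [e'.1, e'.2]
  · rw [div_le_iff₀ (by norm_num)]
    nlinarith [sq_nonneg (pr p), pr_le_one p]

namespace Par

variable {P : Par}

theorem at3_sh (j : P.Idx) (B : P.Idx → Prop) :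
    pr (fun u : P.Uh => B (at3 j.sl j.ty j.th + u)) = pr fun u : P.Uh => B (j + u) := by
  rw [← pr_sh (at3_mem j), add_sub_cancel]

/-- The cascade at all holders. -/
theorem casc_all (hC : CascS) {γ : Fin (P.y ^ 2) → P.Uh} (hγ : Smp γ (1 / 1024))
    {A : ℕ → P.Idx → Prop} {q : ℕ → P.Idx → Bv (16 * P.r) → Prop}
    (h1 : ∀ i, Inv (P.Us (i + 1)) (A i) ∧ Inv (P.Us (i + 1)) (q i))
    (h2 : ∀ (i : Fin P.k) j, A (i + 1) j → ∃ b : Fin (P.y ^ 2) → Bv (16 * P.r) → Prop,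
      (∀ s, A i (j + γ s) → b s = q i (j + γ s)) ∧
      ∀ h, q (i + 1) j h ↔ thr (j.th i) ≤ pr fun s => b s h) :
    ∃ Lk : P.Idx → Prop, Inv P.Uh Lk ∧ (∀ j, pr (fun t => ¬Lk (j + iT t)) ≤ 1 / 100) ∧
      ∀ j, Lk j → (∀ i ≤ P.k, pr (fun u : P.Uh => ¬A i (j + u)) ≤ 1 / 4000) →
        ∃ wv, pr (fun u : P.Uh => ¬(A P.k (j + u) ∧ q P.k (j + u) = wv)) ≤ 1 / 8 ∧
          ∀ v (c : Prop), pr (fun u : P.Uh => A 0 (j + u) ∧ ¬(q 0 (j + u) v ↔ c)) ≤ 1 / 5 →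
            (wv v ↔ c) := by
  have : Nonempty (Fin (P.y ^ 2)) := ⟨⟨0, pow_pos (Nat.cast_pos.1 P.y_pos) 2⟩⟩
  choose Lk g1 g2 using fun s M => hC P.Uh _ (Bv (16 * P.r)) γ P.k
    (fun i θ u => A i (at3 s M θ + u)) (fun i θ u => q i (at3 s M θ + u)) hγ
    (by simp [pow_add]) (fun i θ θ' e => by
      have m : ∀ u : P.Uh, at3 s M θ + u - (at3 s M θ' + u) ∈ P.Us (i + 1) := fun u => by
        simpa [mem_UU, sub_eq_zero] using fun a k => e a (by omega)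
      exact ⟨funext fun u => (h1 i).1.of_sub (m u), funext fun u => (h1 i).2.of_sub (m u)⟩)
    fun i θ u k => by simpa [add_assoc, (mem_Uh.1 u.2).2.2] using h2 i _ k
  refine ⟨fun j => Lk j.sl j.ty j.th, fun j u hu => ?_, fun j => ?_, fun j k k' => ?_⟩
  · obtain ⟨a, b, c⟩ := mem_Uh.1 hu
    simp [a, b, c]
  · simpa using (pr_equiv (Equiv.addLeft j.th) _).trans_le (g1 j.sl j.ty)
  · obtain ⟨wv, w1, w2⟩ := g2 _ _ _ k fun i hi => (at3_sh j fun u => ¬A i u).trans_le (k' i hi)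
    exact ⟨wv, (at3_sh j fun u => ¬(A P.k u ∧ q P.k u = wv)).ge.trans w1, fun v c e =>
      w2 v c ((at3_sh j fun u => A 0 u ∧ ¬(q 0 u v ↔ c)).trans_le e)⟩

variable (P) in
theorem siteS (hT : P.TreeS) (hS : P.StgS) (hH : P.HoldS) (hC : CascS) : P.SiteS := by
  intro A ro hi
  obtain ⟨γ, hγ⟩ := smp1 P.Uh
  have hy := P.hyp.hy
  refine (((Real.par fun ch : Ch => (hT _ _ (hi ch).1 (hi ch).2).ren
    (In' := Ch × Fin P.w) fun b => (ch, b)).comp (hS γ)).comp hH).mono ?_ ?_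
  · have := Nat.pow_le_pow_right (show 0 < P.y by omega) (show 162 ≤ 165 by norm_num)
    have := Nat.mul_le_mul_left (P.y ^ 165) (show 10 ≤ P.y by omega)
    rw [Nat.card_eq_fintype_card, Fintype.card_fin, pow_succ _ 165]
    omega
  rintro c x o F ⟨O, ⟨Q, t, s⟩, k⟩ H hH
  choose t1 Bad t2 t3 using t
  obtain ⟨B, q, s1, s2, s3, s4, s5⟩ := s t1
  obtain ⟨Lk, l1, l2, l3⟩ := casc_all hC hγ s1 s2
  have core : ∀ j, Lk j → Light F j →
      pr (fun u : P.Uh => e3 P.y / 2 < err P.enc H P.Uf (j + u) (mlp (wst H j))) ≤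
        (P.y : ℝ) ^ 21 * flt P.Uh j F ∧ ∀ v (c : Prop),
        pr (fun u : P.Uh => B 0 (j + u) ∧ ¬(q 0 (j + u) v ↔ c)) ≤ 1 / 5 → (wst H j v ↔ c) := by
    intro j a b
    obtain ⟨wv, w1, w2⟩ := l3 j a (s3 j b)
    obtain ⟨k1, k2⟩ := k H hH j wv (fun i => B P.k i ∧ q P.k i = wv)
      (fun i u hu => by simp only [(s1 _).1 i u hu, (s1 _).2 i u hu])
      ((b _ le_rfl).trans (one_div_le_one_div_of_le (pow_pos P.y_pos _)
        (pow_le_pow_right₀ (by linarith [P.hy]) (by norm_num)))) w1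
      fun u _ e => e.2 ▸ s4 _ e.1
    have e : wst H j = wv := funext fun h => by rw [wst, cw_eq (ld_y wv) k1, mlp_ne]
    exact e ▸ ⟨k2, w2⟩
  refine ⟨Bad, Lk, l1, t2, l2, fun j a b => (core j a b).1,
    fun j a b h a₁ a₂ v u1 u2 f => (core j a b).2 h _ ?_⟩
  have fit : ∀ t a, Sup A ro x F Bad j h t a → _ := fun t a u => cut_fit hγ
    (fun u => cw (wd Q t.1) (P.Us 1) (j + u) (cub h) ≠ 0) t.2 a fun b e =>
      (u b e).trans (pr_mono fun u ⟨g1, g2, q', g3, g4⟩ => by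
        refine Iff.trans ?_ ((t3 _ _ h q' g1 g2 ?_ g3).trans g4)
        · rw [lf, cw_inv _ _ _ _ (iR_mem _)]
          rfl
        · rw [lf, (hi t.1).2 _ _ (iR_mem _)]
          simp)
  refine (pr_le_add fun u e => not_and_or.1 fun g => e.2 ?_).trans
    ((add_le_add (fit _ _ u1) (fit _ _ u2)).trans (by norm_num))
  obtain ⟨m1, m2, -⟩ := mem_Uh.1 u.2
  rw [s5, Ix.add_ty, Ix.add_sl, m1, m2, add_zero, add_zero]
  exact gv_iff (by simpa only [AddSubgroup.coe_add, add_assoc] using g.1)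
    (by simpa only [AddSubgroup.coe_add, add_assoc] using g.2) f

end Par

end Pool.Agent.PP
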