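import Pool.Agent.MP_13199e_lc.PP.E.Defs

/-! PROJECT PP, block E: the statements of the rows. -/

set_option autoImplicit false

namespace Pool.Agent.PP

open Function Pool.Agent.MP_13199e_lc

/-- CASC: the cascade of thresholds. -/
def CascS : Prop :=
  ∀ (Ω σ V : Type) [AddCommGroup Ω] [Finite Ω] [Finite σ] [Nonempty σ] [Finite V] (γ : σ → Ω)
    (k : ℕ) (A : ℕ → (Fin k → Bv 6) → Ω → Prop) (q : ℕ → (Fin k → Bv 6) → Ω → V → Prop),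
    Smp γ (1 / 1024) → Nat.card V * 2 ^ 10 ≤ 2 ^ k →
    (∀ i θ θ', (∀ a : Fin k, a.1 < i → θ a = θ' a) → A i θ = A i θ' ∧ q i θ = q i θ') →
    (∀ (i : Fin k) θ u, A (i + 1) θ u → ∃ b : σ → V → Prop,
      (∀ s, A i θ (u + γ s) → b s = q i θ (u + γ s)) ∧
      ∀ v, q (i + 1) θ u v ↔ thr (θ i) ≤ pr fun s => b s v) →
    ∃ Lk : (Fin k → Bv 6) → Prop, pr (fun θ => ¬Lk θ) ≤ 1 / 100 ∧ ∀ θ, Lk θ →
      (∀ i ≤ k, pr (fun u => ¬A i θ u) ≤ 1 / 4000) → ∃ wv : V → Prop,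
        pr (fun u => ¬(A k θ u ∧ q k θ u = wv)) ≤ 1 / 8 ∧
        ∀ v (c : Prop), pr (fun u => A 0 θ u ∧ ¬(q 0 θ u v ↔ c)) ≤ 1 / 5 → (wv v ↔ c)

namespace Par

variable (P : Par)

/-- The result of block C for these parameters. -/
abbrev KitP : Prop := Kit P.enc P.y (16 * P.r) P.Idx P.Cx

/-- The local setting. -/
abbrev loc : Stg (P.Cx × P.Lab) := locS P.Cx P.Lab

variable {P}

/-- Few versions are suspect at the top of the tree. -/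
def TopP (o : P.Wd) (F : Set P.Lab) : Prop :=
  ∀ j, pr (fun u : P.Uh => flt (P.Us 0) (j + u) F ≤ e0 P.y ∧ ¬Cls o (P.Us 1) (j + u)) ≤
    1 / (P.y : ℝ) ^ 3

/-- Along a good path the value of the leaf reaches the top. -/
def PathP (A : P.Idx → Bv (16 * P.r) →+ Bv (16 * P.r)) (ro : P.Idx → Bv (16 * P.r) →+ Bv (14 * P.r))
    (x o : P.Wd) (F : Set P.Lab) (Bad : P.Idx → Prop) : Prop :=
  (∀ j, pr (fun ν => Bad (j + iN ν)) ≤ 1 / (P.y : ℝ)) ∧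
    ∀ j h (q : Bv (16 * P.r) → Prop), ¬Bad j → Calm F j → j.rh = ro j h →
      err P.enc x (P.UU 0 0) j (mlp q) ≤ e3 P.y →
      (cw o (P.Us 1) j (cub h) ≠ 0 ↔ q (A j h + j.gg))

variable (P) in
/-- TREE. -/
def TreeS : Prop :=
  ∀ (A : P.Idx → Bv (16 * P.r) →+ Bv (16 * P.r)) (ro : P.Idx → Bv (16 * P.r) →+ Bv (14 * P.r)),
    Inv (P.UU P.L 0) A → Inv (P.UU P.L 0) ro →
    Real P.loc (P.y ^ 162) (In := Fin P.w) (Out := Fin P.w) fun _ x o F =>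
      TopP o F ∧ ∃ Bad, PathP A ro x o F Bad

/-- The stages. -/
def StgR (γ : Fin (P.y ^ 2) → P.Uh) (c : P.Cx) (x : Ch × Fin P.w → P.Lab → V4) (o : P.Wd)
    (F : Set P.Lab) : Prop :=
  (∀ ch, TopP (wd x ch) F) → ∃ (A : ℕ → P.Idx → Prop) (q : ℕ → P.Idx → Bv (16 * P.r) → Prop),
    (∀ i, Inv (P.Us (i + 1)) (A i) ∧ Inv (P.Us (i + 1)) (q i)) ∧
    (∀ (i : Fin P.k) j, A (i + 1) j → ∃ b : Fin (P.y ^ 2) → Bv (16 * P.r) → Prop,
      (∀ s, A i (j + γ s) → b s = q i (j + γ s)) ∧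
      ∀ h, q (i + 1) j h ↔ thr (j.th i) ≤ pr fun s => b s h) ∧
    (∀ j, Light F j → ∀ i ≤ P.k, pr (fun u : P.Uh => ¬A i (j + u)) ≤ 1 / 4000) ∧
    (∀ j, A P.k j → flt (P.Us (P.k + 1)) j F ≤ e0 P.y ∧
      err P.enc o (P.Us (P.k + 1)) j (mlp (q P.k j)) ≤ e3 P.y) ∧
    ∀ j h, q 0 j h ↔ gv (c (j.ty, h) j.sl) fun a =>
      cut a.2 ≤ pr fun s => cw (wd x a.1) (P.Us 1) (j + γ s) (cub h) ≠ 0

variable (P) in
/-- STG. -/
def StgS : Prop :=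
  ∀ γ : Fin (P.y ^ 2) → P.Uh, Real P.loc (3 * P.y ^ 165) (StgR γ)

variable (P) in
/-- HOLD: clean-up and majority over the replicates; `H` is a copy of the output. -/
def HoldS : Prop :=
  Real P.loc (P.y ^ 162) (In := Fin P.w) (Out := Fin P.w) fun _ x o F =>
    ∀ H : P.Wd, (∀ p ∉ F, ∀ a, Is P.enc o p a → Is P.enc H p a) →
      ∀ j (q : Bv (16 * P.r) → Prop) (Gd : P.Idx → Prop), Inv (P.Us (P.k + 1)) Gd →
        flt P.Uh j F ≤ e0 P.y → pr (fun u : P.Uh => ¬Gd (j + u)) ≤ 1 / 8 →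
        (∀ u ∈ P.Uh, Gd (j + u) → flt (P.Us (P.k + 1)) (j + u) F ≤ e0 P.y ∧
          err P.enc x (P.Us (P.k + 1)) (j + u) (mlp q) ≤ e3 P.y) →
        err P.enc H P.Uh j (mlp q) ≤ e3 P.y ∧
        pr (fun u : P.Uh => e3 P.y / 2 < err P.enc H P.Uf (j + u) (mlp q)) ≤
          (P.y : ℝ) ^ 21 * flt P.Uh j F

section
variable (A : Ch → P.Idx → Bv (16 * P.r) →+ Bv (16 * P.r))
  (ro : Ch → P.Idx → Bv (16 * P.r) →+ Bv (14 * P.r))

/-- The path to the leaf `j` is good and carries the opinion `b`. -/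
def Gd (x : Ch × Fin P.w → P.Lab → V4) (F : Set P.Lab) (Bad : Ch → P.Idx → Prop) (ch : Ch)
    (h : Bv (16 * P.r)) (b : Bool) (j : P.Idx) : Prop :=
  ¬Bad ch j ∧ Calm F j ∧ ∃ q : Bv (16 * P.r) → Prop,
    err P.enc (wd x ch) (P.UU 0 0) j (mlp q) ≤ e3 P.y ∧ (q (A ch j h + j.gg) ↔ b = true)

/-- Enough paths support the read `a`. -/
def Sup (x : Ch × Fin P.w → P.Lab → V4) (F : Set P.Lab) (Bad : Ch → P.Idx → Prop) (j : P.Idx)
    (h : Bv (16 * P.r)) (t : Ch × Bool) (a : Option Bool) : Prop :=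
  ∀ b, a = some b → (if t.2 = b then 7 / 10 else 2 / 5 : ℝ) ≤
    pr fun u : P.Uh => Gd A x F Bad t.1 h b (lf (ro t.1) h (j + u))

/-- The facts at one site. -/
structure SiteP (c : P.Cx) (x : Ch × Fin P.w → P.Lab → V4) (H : P.Wd) (F : Set P.Lab)
    (Bad : Ch → P.Idx → Prop) (Lk : P.Idx → Prop) : Prop where
  inv : Inv P.Uh Lk
  bad : ∀ ch j, pr (fun ν => Bad ch (j + iN ν)) ≤ 1 / (P.y : ℝ)
  luck : ∀ j, pr (fun t => ¬Lk (j + iT t)) ≤ 1 / 100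
  fib : ∀ j, Lk j → Light F j →
    pr (fun u : P.Uh => e3 P.y / 2 < err P.enc H P.Uf (j + u) (mlp (wst H j))) ≤
      (P.y : ℝ) ^ 21 * flt P.Uh j F
  forc : ∀ j, Lk j → Light F j → ∀ h a₁ a₂ b, Sup A ro x F Bad j h (c (j.ty, h) j.sl).2.1 a₁ →
    Sup A ro x F Bad j h (c (j.ty, h) j.sl).2.2 a₂ →
    (∀ a' b', Fits a₁ a' → Fits a₂ b' → tt (c (j.ty, h) j.sl).1 a' b' = b) →
    (wst H j h ↔ b = true)

end

variable (P) in
/-- SITE. -/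
def SiteS : Prop :=
  ∀ (A : Ch → P.Idx → Bv (16 * P.r) →+ Bv (16 * P.r))
    (ro : Ch → P.Idx → Bv (16 * P.r) →+ Bv (14 * P.r)),
    (∀ ch, Inv (P.UU P.L 0) (A ch) ∧ Inv (P.UU P.L 0) (ro ch)) →
    Real P.loc (P.y ^ 166) (In := Ch × Fin P.w) (Out := Fin P.w) fun c x o F =>
      ∀ H : P.Wd, (∀ p ∉ F, ∀ a, Is P.enc o p a → Is P.enc H p a) →
        ∃ Bad Lk, SiteP A ro c x H F Bad Lk

/-! ### The global picture -/

section
variable {Mv Z : Type} (G : Geo P.r Mv) (ω : Wir Mv P.Sl) (mv : Mv → Z → Z)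

/-- The site that the fetch wire reads. -/
def fz (ch : Ch) (z : Z) (j : P.Idx) : Z := run mv (fw G ω ch j) z

/-- The faults at a site. -/
def sF (F : Set (Z × P.Lab)) (z : Z) : Set P.Lab := {l | (z, l) ∈ F}

/-- The facts of a round. -/
structure RoundP (C : Z → P.Sl → Gate) (x : Z → Ch × Fin P.w → P.Lab → V4) (H : Z → P.Wd)
    (F : Set (Z × P.Lab)) (Bad : Z → Ch → P.Idx → Prop) (Lk : Z → P.Idx → Prop) : Prop where
  fet : ∀ z l, (z, l) ∉ F → ∀ ch a,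
    Is P.enc (H (fz G ω mv ch z l.1)) (fi G ω ch l.1, l.2) a → Is P.enc (wd (x z) ch) l a
  site : ∀ z, SiteP (fA G ω) (fR G ω) (fun a => C (run mv (G.wa a.1 a.2) z)) (x z) (H z) (sF F z)
    (Bad z) (Lk z)

/-- The mean opinion of the holders of the type `M`. -/
noncomputable def mu1 (W : Z → P.Idx → Bv (16 * P.r) → Prop) (v : Z) (s : P.Sl)
    (M : Bv (6 * P.r)) : ℝ :=
  pr fun a : Tk P.r × Bv (16 * P.r) => W (run mv (G.wa M a.2) v) (at3 s M a.1) a.2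

/-- The decoded assignment. -/
noncomputable def dec (H : Z → P.Wd) (v : Z) (s : P.Sl) : V4 :=
  q4 (av (mu1 G mv (fun z => wst (H z)) v s))

/-- The damage. -/
def Ev (H : Z → P.Wd) (F : Set (Z × P.Lab)) (Lk : Z → P.Idx → Prop) (ch : Ch) (z : Z)
    (j : P.Idx) : Prop :=
  ¬Calm (sF F z) j ∨ ¬Light (sF F z) j ∨ ¬Light (sF F (fz G ω mv ch z j)) (fi G ω ch j) ∨
    (Lk (fz G ω mv ch z j) (fi G ω ch j) ∧ Light (sF F (fz G ω mv ch z j)) (fi G ω ch j) ∧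
      e3 P.y / 2 < err P.enc (H (fz G ω mv ch z j)) P.Uf (fi G ω ch j)
        (mlp (wst (H (fz G ω mv ch z j)) (fi G ω ch j))))

/-- The density of `B` for fixed slot, type, chart and leaf. -/
noncomputable def Dd (B : Z → P.Idx → Prop) (s : P.Sl) (z : Z) (M : Bv (6 * P.r))
    (c : Bv (3 * P.r)) (ρ : Bv (14 * P.r)) : ℝ := pr fun u : P.Ud => B z (at4 s M c ρ + u)

/-- The density of `B` that the node `(v, s)` sees. -/
noncomputable def TD (ch : Ch) (B : Z → P.Idx → Prop) (s : P.Sl) (v : Z) : ℝ :=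
  av fun u : Bv (6 * P.r) × Bv (3 * P.r) × Bv (16 * P.r) =>
    Dd B s (run mv (G.wa u.1 u.2.2) v) u.1 u.2.1 (G.ro (ω.2 ch s) u.2.1 u.2.2)

/-- The density of the faults in the slot `s`. -/
noncomputable def Ph (F : Set (Z × P.Lab)) (s : P.Sl) : ℝ :=
  av fun z => flt P.Ul (at3 s 0 0) (sF F z)

/-- FET A: the fetch wire on fibres, thresholds and slots. -/
structure FetA (ch : Ch) : Prop where
  fib : ∀ (B : Z → P.Lab → Prop) z j,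
    ob (P.UU 0 0) j (fun l => B (fz G ω mv ch z l.1) (fi G ω ch l.1, l.2)) =
      ob P.Uf (fi G ω ch j) (B (fz G ω mv ch z j))
  th : ∀ (B : Z → P.Idx → Prop) (c : ℝ), (∀ z j, pr (fun t => B z (j + iT t)) ≤ c) → ∀ z j h,
    pr (fun u : P.Uh => B (fz G ω mv ch z (lf (fR G ω ch) h (j + u)))
      (fi G ω ch (lf (fR G ω ch) h (j + u)))) ≤ c
  nu : ∀ (B : P.Idx → Prop) (c : ℝ), (∀ j, pr (fun ν => B (j + iN ν)) ≤ c) → ∀ j h,
    pr (fun u : P.Uh => B (lf (fR G ω ch) h (j + u))) ≤ c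
  slot : ∀ (f : Z → P.Idx → ℝ) (s : P.Sl),
    av (fun a : Z × P.Ul => f (fz G ω mv ch a.1 (at3 s 0 0 + a.2)) (fi G ω ch (at3 s 0 0 + a.2))) =
      av fun a : Z × P.Ul => f a.1 (at3 (ω.1 ch s) 0 0 + a.2)

/-- FET B: changes of variables. -/
structure FetB (ch : Ch) : Prop where
  op : ∀ W : Z → P.Idx → Bv (16 * P.r) → Prop, (∀ z, Inv P.Uh (W z)) → ∀ v s M t h,
    pr (fun u : P.Uh =>
      W (fz G ω mv ch (run mv (G.wa M h) v) (lf (fR G ω ch) h (at3 s M t + u)))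
        (fi G ω ch (lf (fR G ω ch) h (at3 s M t + u)))
        (fA G ω ch (lf (fR G ω ch) h (at3 s M t + u)) h + (lf (fR G ω ch) h (at3 s M t + u)).gg)) =
      av fun a : Bv (3 * P.r) × Bv (2 * P.r) =>
        mu1 G mv W (mv (ω.2 ch s) v) (ω.1 ch s) (G.tw (ω.2 ch s) (M, a)).1
  td : ∀ (B : Z → P.Idx → Prop) v s,
    av (fun a : Bv (6 * P.r) × Tk P.r × Bv (16 * P.r) => pr fun u : P.Uh =>
      B (run mv (G.wa a.1 a.2.2) v) (lf (fR G ω ch) a.2.2 (at3 s a.1 a.2.1 + u))) =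
      TD G ω mv ch B s v
  dd : ∀ (B : Z → P.Idx → Prop) s,
    av (fun u : Z × Bv (6 * P.r) × Bv (3 * P.r) × Bv (14 * P.r) =>
      Dd B s u.1 u.2.1 u.2.2.1 u.2.2.2) = pr fun a : Z × P.Ul => B a.1 (at3 s 0 0 + a.2)

end

variable (P)

/-- FET A. -/
def FetAS : Prop :=
  ∀ (Mv Z : Type) [Finite Z] (G : Geo P.r Mv) (ω : Wir Mv P.Sl) (mv : Mv → Z → Z),
    (∀ m, Injective (mv m)) → ∀ ch, FetA G ω mv ch

/-- FET B. -/
def FetBS : Prop :=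
  ∀ (Mv Z : Type) [Finite Z] (G : Geo P.r Mv) (ω : Wir Mv P.Sl) (mv : Mv → Z → Z),
    G.Ok mv → ∀ ch, FetB G ω mv ch

/-- NODE: a node that sees little damage is satisfied. -/
def NodeS : Prop :=
  ∀ (Mv Z : Type) [Finite Z] (G : Geo P.r Mv) (ω : Wir Mv P.Sl) (mv : Mv → Z → Z) C x H F Bad Lk,
    G.Ok mv → (∀ ch, FetA G ω mv ch ∧ FetB G ω mv ch) → RoundP G ω mv C x H F Bad Lk → ∀ v s,
      (∀ ch, TD G ω mv ch (Ev G ω mv H F Lk ch) s v < 1 / 1000) →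
      GateOk ω mv (C v s) (dec G mv H) v s

/-- COUNT: the mean damage. -/
def CntS : Prop :=
  ∀ (Mv Z : Type) [Finite Z] (G : Geo P.r Mv) (ω : Wir Mv P.Sl) (mv : Mv → Z → Z) C x H F Bad Lk
    ch, FetA G ω mv ch → RoundP G ω mv C x H F Bad Lk → ∀ s : P.Sl,
      pr (fun a : Z × P.Ul => Ev G ω mv H F Lk ch a.1 (at3 s 0 0 + a.2)) ≤
        (P.y : ℝ) ^ 75 * (Ph F s + Ph F (ω.1 ch s))

/-- FIN: the gain. -/
def FinS : Prop :=
  ∀ (Mv Z : Type) [Finite Z] (G : Geo P.r Mv) (ω : Wir Mv P.Sl) (mv : Mv → Z → Z) C x H F Bad Lk,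
    (∀ m, Injective (mv m)) → G.Ok mv → RoundP G ω mv C x H F Bad Lk →
      pr (· ∈ F) ≤ 1 / (P.y : ℝ) ^ 414 →
      viol ω mv C (dec G mv H) ≤ pr (· ∈ F) / (2 * (P.y : ℝ) ^ 674)

/-- The flip of the padding. -/
def fp (l : P.Lab) : P.Lab := (l.1 + { (0 : P.Idx) with pad := P.hb }, l.2)

/-- The global setting. -/
@[reducible] def glob {Mv Λ : Type} (T : Tow Mv Λ) (G : Geo P.r Mv) : Stg (P.Cx × P.Lab) where
  ε := Σ k, T.Z k → P.Sl → Gate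
  P e := T.Z e.1 × P.Lab
  Wi := {W : (P.Lab → List Mv) × Equiv.Perm P.Lab //
    ∀ l, W.1 (P.fp l) = W.1 l ∧ (W.1 l).length ≤ 2000}
  rn e W p := (run (T.mv e.1) (W.1.1 p.2) p.1, W.1.2 p.2)
  ctx e p := (fun a => e.2 (run (T.mv e.1) (G.wa a.1 a.2) p.1), p.2)
  i0 := ⟨(fun _ => [], 1), fun _ => ⟨rfl, Nat.zero_le _⟩⟩
  rn0 _ _ := rfl

/-- GLOB: the closed fragment. -/
def GlobS : Prop :=
  ∀ (Mv Λ : Type) (T : Tow Mv Λ) (G : Geo P.r Mv) (ω : Wir Mv P.Sl),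
    ∃ (Q : Frag (P.Cx × P.Lab) (P.glob T G).Wi Empty) (out : Fin P.w → Q.Lay),
      Nat.card Q.Lay ≤ P.y ^ 167 ∧ ∀ e v (F : Set (T.Z e.1 × P.Lab)),
        (∀ p ∉ F, Q.Sat ((P.glob T G).rn e) ((P.glob T G).ctx e) Empty.elim v p) →
        ∃ x Bad Lk, RoundP G ω (T.mv e.1) e.2 x (fun z b l => v (out b) (z, l)) F Bad Lk

/-- AMP: the round. -/
def RndS : Prop :=
  ∀ (Mv Λ : Type) (T : Tow Mv Λ) (G : Geo P.r Mv) (R : ℕ), Nonempty (Λ ≃ P.Lab) → R + 1 ≤ P.y →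
    (∀ k, G.Ok (T.mv k)) → T.Route R → T.Amp P.Sl (1 / (P.y : ℝ) ^ 1090)

end Par

/-- PAR: the parameters exist. -/
def ParS : Prop :=
  ∃ (P : Par) (j : ℕ), 1 ≤ j ∧ Nat.card P.Lab = 2 ^ (6 * P.r * j) ∧
    10 ^ 10 * P.r ^ 3 * j ^ 2 + 1 ≤ P.y

theorem ampS_of (hP : ParS) (h : ∀ P : Par, P.RndS) : AmpS := by
  obtain ⟨P, j, h1, h2, h3⟩ := hP
  have hy := P.hyp.hy
  refine ⟨P.r, j, P.Lab, P.Sl, inferInstance, 1 / (P.y : ℝ) ^ 1090, P.r10, h1, h2, ?_,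
    one_div_pos.2 (pow_pos (Nat.cast_pos.2 (by omega)) _),
    fun Mv _ T G a b => h P Mv _ T G _ ⟨.refl _⟩ h3 a b⟩
  rw [P.cS]
  calc 10 ^ 12 ≤ (2 ^ 20) ^ 2 := by norm_num
    _ ≤ P.y ^ 2 := Nat.pow_le_pow_left hy 2
    _ ≤ _ := Nat.pow_le_pow_right (by omega) (by norm_num)

end Pool.Agent.PP
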