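import Pool.Agent.MP_13199e_lc.PP.E.Base

/-! PROJECT PP, row STG: the stages of thresholds. -/

set_option autoImplicit false

namespace Pool.Agent.PP.Par

open Function

variable {P : Par}

namespace Sg

theorem e13 : e1 P.y ≤ e3 P.y :=
  one_div_le_one_div_of_le (pow_pos P.y_pos _)
    (pow_le_pow_right₀ (by linarith [P.hy]) (by norm_num))

/-- The share of the samples with a nonzero value. -/
noncomputable def sh (γ : Fin (P.y ^ 2) → P.Uh) (W : P.Wd) (U : AddSubgroup P.Idx) (j : P.Idx)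
    (h : Bv (16 * P.r)) : ℝ := pr fun s => cw W U (j + γ s) (cub h) ≠ 0

variable (K : P.KitP) (γ : Fin (P.y ^ 2) → P.Uh)

theorem sh_inv (W : P.Wd) (U : AddSubgroup P.Idx) : Inv U (sh γ W U) := fun j u hu => by
  funext h
  simp only [sh, add_right_comm j u, cw_inv W U _ u hu]

include K

theorem th (U : AddSubgroup P.Idx) (kf : P.Idx → ℝ) (h : Inv U kf) :
    Real P.loc (P.y ^ 164) (In := Fin P.w) (Out := Fin P.w) fun _ x o F => ∀ j,
      flt U j F ≤ e0 P.y → (∀ s, Cls x U (j + γ s)) →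
        err P.enc o U j (mlp fun h => kf j ≤ sh γ x U j h) ≤ e1 P.y :=
  ((K.th U _ (fun s => (γ s : P.Idx)) kf (by simp) h).ren Prod.snd).mono le_rfl
    fun _ x _ _ k j f c => k j (fun s => cw x U (j + γ s)) _ f (fun s => (cw_spec (c s)).2)
      ⟨fun s => (cw_spec (c s)).1, rfl⟩

theorem first : Real P.loc (12 * P.y ^ 164 + P.y ^ 162) (In := Ch × Fin P.w) (Out := Fin P.w)
    fun c x o F => ∀ j, flt (P.Us 1) j F ≤ e0 P.y →
      (∀ ch s, Cls (wd x ch) (P.Us 1) (j + γ s)) → err P.enc o (P.Us 1) j (mlp fun h =>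
        gv (c (j.ty, h) j.sl) fun a => cut a.2 ≤ sh γ (wd x a.1) (P.Us 1) j h) ≤ e1 P.y :=
  ((Real.par fun a : Ch × Bool => (th K γ (P.Us 1) (fun _ => cut a.2) fun _ _ _ => rfl).ren
    (In' := Ch × Fin P.w) (Prod.mk a.1)).comp (K.bo (P.Us 1)
      (fun c j h β => gv (c (j.ty, h) j.sl) β) fun _ j u hu => by simp [hu.1, hu.2.1])).mono
    (by simp) fun _ _ _ _ ⟨_, k, k'⟩ j f c => k' j _ _ f
      (fun a => by rw [add_zero]; exact (k a j f (c a.1)).trans e13) ⟨_, rfl, rfl⟩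

omit K in
theorem kf_inv (i : ℕ) : Inv (P.Us (i + 2)) fun j => thr (gt _ i j.th) := fun j u hu => by
  have : gt _ i u.th = 0 := by
    unfold gt
    split_ifs with h
    exacts [hu.2.2.2.2.2.2.2.2 ⟨i, h⟩ (Nat.lt_succ_self _), rfl]
  simp only [Ix.add_th, map_add, this, add_zero]

theorem stage (i : ℕ) : Real P.loc (P.y ^ 131 + P.y ^ 164) (In := Fin P.w) (Out := Fin P.w)
    fun _ x o F => ∃ R : P.Wd,
      PurR P.enc P.y P.y (P.Us (i + 1)) (P.Us (i + 2)) (ver (P.L + (i + 1))) x R F ∧ ∀ j,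
        flt (P.Us (i + 2)) j F ≤ e0 P.y → (∀ s, Cls R (P.Us (i + 2)) (j + γ s)) →
          err P.enc o (P.Us (i + 2)) j
            (mlp fun h => thr (gt _ i j.th) ≤ sh γ R (P.Us (i + 2)) j h) ≤ e1 P.y :=
  (purU K _ _ _ le_rfl).comp (th K γ _ _ (kf_inv i))

omit K in
theorem uni {F : Set P.Lab} {b : ℕ} (hb : b ≤ P.k) (W : Ch → P.Wd) {j : P.Idx} (hj : Light F j)
    (h : ∀ ch, pr (fun u : P.Uh => flt (P.Us b) (j + u) F ≤ e0 P.y ∧
      ¬Cls (W ch) (P.Us (b + 1)) (j + u)) ≤ 1 / (P.y : ℝ) ^ 3) :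
    pr (fun u : P.Uh => ¬(flt (P.Us (b + 1)) (j + u) F ≤ e0 P.y ∧
      ∀ ch s, Cls (W ch) (P.Us (b + 1)) (j + u + γ s))) ≤ 1 / 4000 := by
  have y0 := P.hy
  have k := pr_exists_le' (c := 1 / (P.y : ℝ) ^ 3 + 1 / (P.y : ℝ) ^ 3)
    (p := fun (t : Ch × Fin (P.y ^ 2)) (u : P.Uh) => ¬Cls (W t.1) (P.Us (b + 1)) (j + u + γ t.2))
    fun t => (pr_sh' (γ t.2).2 j fun i => ¬Cls (W t.1) (P.Us (b + 1)) i).trans_le
      ((pr_le_add fun _ e => (le_or_gt _ _).imp_left fun f => ⟨f, e⟩).trans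
        (add_le_add (h t.1) (light_pr hj (by omega))))
  refine (pr_le_add fun u e => (not_and_or.1 e).imp not_le.1 fun f => ?_).trans
    ((add_le_add (light_pr hj (by omega)) k).trans ?_)
  · simpa using f
  · have : (1 : ℝ) ≤ P.y ^ 2 := by nlinarith
    simp only [Nat.card_eq_fintype_card, Fintype.card_prod, Fintype.card_fin]
    push_cast
    field_simp
    nlinarith

end Sg

open Sg in
theorem stgS (K : P.KitP) : P.StgS := fun γ => by
  refine ((first K γ).comp (Real.chain P.k fun i _ => stage K γ i)).mono ?_ ?_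
  · have y0 := P.hyp.hy
    have a : P.y ^ 162 ≤ P.y ^ 164 := Nat.pow_le_pow_right (by omega) (by norm_num)
    have b : P.y ^ 131 ≤ P.y ^ 164 := Nat.pow_le_pow_right (by omega) (by norm_num)
    have c : P.k ≤ P.y := by have := P.hr; unfold k; omega
    have := Nat.mul_le_mul c (Nat.add_le_add_right b (P.y ^ 164))
    have := Nat.mul_le_mul_right (P.y ^ 164) y0
    rw [pow_succ' P.y 164]
    generalize P.y ^ 164 = z at *
    linarith
  rintro c x _ F ⟨_, h0, O, rfl, rfl, h⟩ top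
  choose! R h1 h2 using h
  let W : ℕ → Ch → P.Wd := fun i => Nat.casesOn i (wd x) fun i _ => R i
  let q : ℕ → P.Idx → Bv (16 * P.r) → Prop := fun i => Nat.casesOn i
    (fun j h => gv (c (j.ty, h) j.sl) fun a => cut a.2 ≤ sh γ (wd x a.1) (P.Us 1) j h)
    fun i j h => thr (gt _ i j.th) ≤ sh γ (R i) (P.Us (i + 2)) j h
  have cl : ∀ i ≤ P.k, ∀ j, flt (P.Us (i + 1)) j F ≤ e0 P.y →
      (∀ ch s, Cls (W i ch) (P.Us (i + 1)) (j + γ s)) →
      err P.enc (O i) (P.Us (i + 1)) j (mlp (q i j)) ≤ e1 P.y := fun i hi j f g => by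
    cases i with
    | zero => exact h0 j f g
    | succ i => exact h2 i hi j f (g 0)
  refine ⟨fun i j => flt (P.Us (i + 1)) j F ≤ e0 P.y ∧
    ∀ ch s, Cls (W i ch) (P.Us (i + 1)) (j + γ s), q, fun i => ⟨fun j u hu => ?_, fun j u hu => ?_⟩,
    fun i j _ => ⟨fun s h => cw (R i) (P.Us (i + 2)) (j + γ s) (cub h) ≠ 0, fun s a => ?_,
      fun h => ?_⟩, fun j hj i hi => uni γ hi _ hj fun ch => ?_,
    fun j a => ⟨a.1, (cl _ le_rfl j a.1 a.2).trans e13⟩, fun _ _ => Iff.rfl⟩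
  · simp only [flt_add hu, add_right_comm j u, cls_inv _ _ _ u hu]
  · cases i with
    | zero => simp [q, sh_inv γ _ _ j u hu, hu.1, hu.2.1]
    | succ i => simp only [q, sh_inv γ _ _ j u hu, kf_inv i j u hu]
  · funext h
    beta_reduce
    rw [cw_eq (ld_y _) ((h1 i i.2 _ a.1).2 _ (ld_y _) (cl i i.2.le _ a.1 a.2)), mlp_ne]
  · rw [← gt_eq i j.th]
    rfl
  · cases i with
    | zero => exact top ch j
    | succ i =>
      exact sus' (by unfold k at hi; unfold L; omega) (fun j u hu => by simp only [flt_add hu])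
        (fun j f => (h1 i hi j f).1) j

end Pool.Agent.PP.Par
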