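import Pool.Agent.MP_13199e_lc.PP.E.Spec

/-! PROJECT PP, block E: the tree of merges. -/

set_option autoImplicit false

namespace Pool.Agent.PP.Par

open Function

variable {P : Par}

namespace Tr

theorem mem {a b : ℕ} {u : P.Idx} : u ∈ P.UU a b ↔ u.sl = 0 ∧ u.ty = 0 ∧ u.cc = 0 ∧ u.nn = 0 ∧
    u.gg = 0 ∧ u.t2 = 0 ∧ (∀ i, a ≤ i.1 → u.rh i = 0) ∧ (∀ i, i.1 < b → u.nu i = 0) ∧
    ∀ i, P.L + i.1 + 1 < b → u.th i = 0 := Iff.rfl

theorem le {a b a' b' : ℕ} (h : a ≤ a') (h' : b' ≤ b) : P.UU a b ≤ P.UU a' b' :=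
  fun _ ⟨a, b, c, d, e, f, g, i, j⟩ => ⟨a, b, c, d, e, f, fun k u => g k (h.trans u),
    fun k u => i k (u.trans_le h'), fun k u => j k (u.trans_le h')⟩

/-- The flip of a leaf bit. -/
def fl (l : Fin (14 * P.r)) : P.Idx := iR (Pi.single l 1)

theorem fl_mem (l : Fin (14 * P.r)) (b : ℕ) : fl l ∈ P.UU (l + 1) b := by
  simp +contextual [mem, fl, Pi.single_apply, Fin.ext_iff]
  omega

theorem split {l : Fin (14 * P.r)} {b : ℕ} {u : P.Idx} (h : u ∈ P.UU (l + 1) b) :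
    u ∈ P.UU l b ∨ ∃ v ∈ P.UU l b, u = fl l + v := by
  have z : ∀ a : ZMod 2, a = 0 ∨ a = 1 := by decide
  have k : ∀ v ∈ P.UU (l + 1) b, v.rh l = 0 → v ∈ P.UU l b :=
    fun v ⟨a, b, c, d, e, f, g, i⟩ hv => ⟨a, b, c, d, e, f, fun k u =>
      u.eq_or_lt.elim (fun t => Fin.ext t ▸ hv) (g k), i⟩
  exact (z (u.rh l)).imp (k u h) fun e => ⟨u - fl l, k _ (sub_mem h (fl_mem l b))
    (by simp [fl, e]), by abel⟩

theorem ob_up {Y : Type} [Finite Y] {l : Fin (14 * P.r)} {b : ℕ} {j : P.Idx} {c : ℝ}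
    {B : P.Idx × Y → Prop} (h : ob (P.UU l b) j B ≤ c) (h' : ob (P.UU l b) (j + fl l) B ≤ c) :
    ob (P.UU (l + 1) b) j B ≤ c := by
  rw [← ob_avg (le l.1.le_succ le_rfl)]
  refine av_le fun u => ?_
  rcases split u.2 with e | ⟨v, hv, e⟩
  · rwa [ob_add e]
  · rwa [e, ← add_assoc, ob_add hv]

theorem sub_a (a b : ℕ) : Sub (P.UU (a + 1) b) (P.UU a b) 2 :=
  sub_of_ker (A := ZMod 2)
    ⟨⟨fun u => if h : a < 14 * P.r then u.rh ⟨a, h⟩ else 0, by simp⟩, fun u v => by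
      split_ifs <;> simp⟩ (le a.le_succ le_rfl)
    (fun v ⟨a, b, c, d, e, f, g, i⟩ hv => ⟨a, b, c, d, e, f, fun k u =>
      u.eq_or_lt.elim (fun t => by subst t; simpa using hv) (g k), i⟩) (by simp)

theorem sub_b (a : ℕ) {b : ℕ} (hb : b ≤ P.L) : Sub (P.UU a b) (P.UU a (b + 1)) (P.y ^ 3) :=
  sub_of_ker (A := P.Ver) ⟨⟨ver b, by simp [ver]⟩, fun u v => by unfold ver; split_ifs <;> simp⟩
    (le le_rfl b.le_succ)
    (fun v ⟨a, b, c, d, e, f, g, i, _⟩ hv => ⟨a, b, c, d, e, f, g, fun k u =>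
      (Nat.le_of_lt_succ u).eq_or_lt.elim (fun t => by subst t; simpa [ver] using hv) (i k),
      fun _ _ => by omega⟩) P.cV.le

theorem y2 : (2 : ℝ) ≤ P.y := by exact_mod_cast le_trans (by norm_num) P.hyp.hy

theorem calm {F : Set P.Lab} {j u : P.Idx} {l : ℕ} (h : Calm F j) (hl : l ≤ P.L)
    (hu : u ∈ P.UU (l + 1) l) :
    flt (P.UU l l) (j + u) F ≤ e0 P.y ∧ flt (P.UU l (l + 1)) (j + u) F ≤ e0 P.y := by
  have := y2 (P := P)
  have a : flt (P.UU l l) (j + u) F ≤ 2 * (1 / (P.y : ℝ) ^ 73) :=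
    (ob_sub (sub_a l l) _ _).trans (mul_le_mul_of_nonneg_left ((ob_add hu _ _).trans_le (h l hl))
      (by norm_num))
  have b : (P.y : ℝ) ^ 3 * (2 * (1 / (P.y : ℝ) ^ 73)) ≤ e0 P.y := by
    unfold e0
    field_simp
    linarith
  refine ⟨a.trans (le_trans (le_mul_of_one_le_left (by positivity)
    (one_le_pow₀ (by linarith))) b), (ob_sub (sub_b l hl) _ _).trans (le_trans ?_ b)⟩
  push_cast
  gcongr
  exact a

theorem num {a : ℝ} (ha : a ≤ e0 P.y) :
    e3 P.y / (P.y : ℝ) ^ 51 + (P.y : ℝ) ^ 9 * a ≤ e1 P.y := by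
  have h := y2 (P := P)
  refine (add_le_add le_rfl (mul_le_mul_of_nonneg_left ha (by positivity))).trans ?_
  unfold e0 e1 e3
  field_simp
  linarith

theorem e3_nn : 0 ≤ e3 P.y := by unfold e3; positivity

theorem pur (K : P.KitP) {l : ℕ} (hl : l ≤ P.L) : Real P.loc (P.y ^ 131) (In := Fin P.w)
    (Out := Fin P.w) fun _ x o F =>
      PurR P.enc P.y (16 * P.r + l) (P.UU l l) (P.UU l (l + 1)) (ver l) x o F :=
  K.pur _ _ P.Ver P.Pz _ ⟨⟨Ix.pz, rfl⟩, fun _ _ => rfl⟩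
    ⟨⟨fun a => { (0 : P.Idx) with pz := a }, rfl⟩, fun _ _ => by ext1 <;> simp⟩ _
    (by have := P.hr; unfold L at hl; omega) P.cV.le P.cZ (fun _ => rfl) (fun _ => by simp [mem])
    ⟨(sub_b l hl).1, (sub_b l hl).2.trans (Nat.mul_le_mul_right _ (Nat.pow_le_pow_right
      (lt_of_lt_of_le (by norm_num) P.hyp.hy) (by norm_num)))⟩
    fun j u hu => by unfold ver; split_ifs <;> simp [hu.2.2.2.2.2.2.2.1]

/-- Suspect indices. -/
def Sus (d l : ℕ) (o : P.Wd) (F : Set P.Lab) (j : P.Idx) : Prop :=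
  flt (P.UU l l) j F ≤ e0 P.y ∧ ¬∃ g, Ld d g ∧ err P.enc o (P.UU l (l + 1)) j g ≤ e3 P.y

theorem sus {d l : ℕ} (hl : l < 30 * P.r + 11) {x o : P.Wd} {F : Set P.Lab}
    (h : PurR P.enc P.y d (P.UU l l) (P.UU l (l + 1)) (ver l) x o F) {Ω : Type} [AddGroup Ω]
    [Finite Ω] (f : Ω → P.Idx) (s : P.Ver → Ω)
    (hf : ∀ ω ν, f (ω + s ν) = f ω + iN (Pi.single ⟨l, hl⟩ ν)) :
    pr (fun ω => Sus d l o F (f ω)) ≤ 1 / (P.y : ℝ) ^ 3 := by
  rw [pr, ← av_av_shift _ s]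
  refine av_le fun ω => ?_
  have m : ∀ ν, iN (Pi.single ⟨l, hl⟩ ν) ∈ P.UU l l := fun ν => by
    simp +contextual [mem, Pi.single_apply, Fin.ext_iff]
    omega
  refine (pr_le_inv fun a b ha hb => ?_).trans_eq (by rw [P.cV, Nat.cast_pow])
  rw [hf] at ha hb
  obtain ⟨ν, hν⟩ := (h _ ((ob_add (m a) _ _).symm.trans_le ha.1)).1
  have e := (not_not.1 (mt (hν _ (m a)) ha.2)).trans (not_not.1 (mt (hν _ (m b)) hb.2)).symm
  simpa [ver, hl] using e

variable (A : P.Idx → Bv (16 * P.r) →+ Bv (16 * P.r))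
  (ro : P.Idx → Bv (16 * P.r) →+ Bv (14 * P.r))

/-- The invariant at the level `l`. -/
def Lev (l : ℕ) (x o : P.Wd) (F : Set P.Lab) : Prop :=
  ∃ Bad : P.Idx → Prop, (∀ j, pr (fun ν => Bad (j + iN ν)) ≤ l * (1 / (P.y : ℝ) ^ 3)) ∧
    ∀ j h (q : Bv (16 * P.r) → Prop), ¬Bad j → Calm F j → j.rh = ro j h →
      err P.enc x (P.UU 0 0) j (mlp q) ≤ e3 P.y → ∃ G, Ld (16 * P.r + l) G ∧
        err P.enc o (P.UU l l) j G ≤ e1 P.y ∧ G (cub h) = bit (q (A j h + j.gg))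

variable {A ro}

theorem dd_le : P.y ≤ dd P.y ∧ 2 ≤ P.y ^ 2 ∧ P.y + 1 < P.y ^ 6 ∧ P.L = 14 * P.r := by
  have := P.hyp.hy
  have a : P.y ^ 2 ≤ P.y ^ 6 := Nat.pow_le_pow_right (by omega) (by norm_num)
  exact ⟨Nat.le_sub_of_add_le (by nlinarith), by nlinarith, by nlinarith, rfl⟩

theorem sumF {C ι : Type} [Fintype ι] (hι : Nat.card ι ≤ 12) (Ψ : C → (ι → P.E) → P.E) :
    SumF (P.y ^ 72) Ψ := by
  classical
  refine ⟨ι → P.E, inferInstance, inferInstance, fun _ i a => Pi.single i a, Ψ, ?_, fun c v => by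
    rw [Finset.univ_sum_single]⟩
  rw [Nat.card_fun, P.hyp.cE, ← pow_mul]
  exact Nat.pow_le_pow_right (lt_of_lt_of_le (by norm_num) P.hyp.hy) (by omega)

theorem lev (K : P.KitP) (hA : Inv (P.UU P.L 0) A) (hr : Inv (P.UU P.L 0) ro) (l : ℕ)
    (hl : l ≤ P.L) : Real P.loc (P.y ^ 160 + l * (P.y ^ 131 + P.y ^ 160)) (In := Fin P.w)
      (Out := Fin P.w) fun _ x o F => Lev A ro l x o F := by
  have := dd_le (P := P)
  have := P.hr
  induction l with
  | zero =>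
    choose A' hA' using P.hyp.ld.map
    refine ((K.op (P.UU 0 0) Unit (fun _ => 0) (fun j _ x => A' (A j) x + cub j.gg)
      (fun _ v => v ()) (by simp; omega) (fun j u hu => by
        simp [hA j u (le P.L.zero_le le_rfl hu), hu.2.2.2.2.1]) (fun _ _ _ _ _ => rfl)
      (sumF (by simp) _)).ren Prod.snd).mono (by simp) fun c x o F a =>
        ⟨fun _ => False, fun _ => by simp [pr_of_not], fun j h q _ hc _ he => ?_⟩
    have c0 := calm hc hl (zero_mem _)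
    rw [add_zero] at c0
    refine ⟨fun x => mlp q (A' (A j) x + cub j.gg), (ld_mlp q).aff _ _, (a j (fun _ => mlp q) _
      e3_nn le_rfl fun _ => ⟨(ld_mlp q).mono (by omega), by rw [add_zero]; exact he⟩).trans
        (num c0.1), ?_⟩
    simp only [hA', ← P.hyp.ld.add, mlp, P.hyp.ld.cube]
  | succ l ih =>
    choose L' hL' using P.hyp.ld.form
    have hl' := Nat.le_of_succ_le hl
    let i : Fin (14 * P.r) := ⟨l, hl⟩
    let lam : P.Idx → P.X → P.E := fun j x =>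
      L' ((Pi.evalAddMonoidHom _ i).comp (ro j)) x + bit (j.rh i ≠ 0)
    have z : ∀ a : ZMod 2, (bit (a + 1 ≠ 0) : P.E) = bit (a ≠ 0) + 1 := fun a => by
      have : a = 0 ∨ a = 1 := by revert a; decide
      rcases this with rfl | rfl <;> simp [bit, P.hyp.ch2, show (1 + 1 : ZMod 2) = 0 from rfl]
    have lf : ∀ j x, lam (j + fl i) x = lam j x + 1 := fun j x => by
      simp only [lam, hr j _ (le hl le_rfl (fl_mem i 0)), add_assoc, ← z]
      simp [fl]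
    refine ((ih hl').comp ((pur K hl').comp ((K.op (P.UU l (l + 1)) Bool
      (fun b => bif b then fl i else 0) (fun _ _ x => x)
      (fun c v => (1 - lam c.2.1 c.2.2) * v false + lam c.2.1 c.2.2 * v true) (by simp; omega)
      (fun _ _ _ => rfl) (fun c x j u hu => by
        simp [lam, hr j u (le hl' l.succ.zero_le hu), hu.2.2.2.2.2.2.1 i le_rfl])
      (sumF (by simp) _)).ren Prod.snd))).mono (by rw [Nat.succ_mul, add_assoc]) ?_
    rintro c x o F ⟨n, ⟨B, b1, b2⟩, p, hp, a⟩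
    refine ⟨fun j => B j ∨ Sus (16 * P.r + l) l p F (j + fl i), fun j => (pr_or _ _).trans
      ((add_le_add (b1 j) (sus (by omega) hp (fun ν => j + iN ν + fl i)
        (fun ν => Pi.single ⟨l, by omega⟩ ν) fun ω ν => by
          ext1 <;> simp [fl, add_assoc])).trans_eq (by push_cast; ring)), fun j h q hB hc hj he => ?_⟩
    rw [not_or] at hB
    obtain ⟨g, g1, g2, g3⟩ := b2 j h q hB.1 hc hj he
    have c0 := calm hc hl' (zero_mem _)
    rw [add_zero] at c0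
    have c1 := calm hc hl' (fl_mem i l)
    obtain ⟨g', g4, g5⟩ := not_not.1 (not_and.1 hB.2 c1.1)
    have g6 := (hp j c0.1).2 g g1 g2
    have ll : Ld 1 (lam j) := (Ld.lin _).add (Ld.const _ _)
    refine ⟨fun x => (1 - lam j x) * g x + lam j x * g' x, ((((Ld.const 1 1).sub ll).mul g1).add
      (ll.mul g4)).mono (by omega), ob_up (l := i) ((a j (fun b => bif b then g' else g) _ e3_nn
        le_rfl (Bool.rec ⟨g1.mono (by omega), by rw [cond_false, add_zero]; exact g6⟩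
          ⟨g4.mono (by omega), g5⟩)).trans (num c0.2)) ?_, ?_⟩
    · have := (a (j + fl i) (fun b => bif b then g else g') _ e3_nn le_rfl (Bool.rec
        ⟨g4.mono (by omega), by rw [cond_false, add_zero]; exact g5⟩ ⟨g1.mono (by omega), by
          rw [cond_true, add_assoc, P.hyp.two, add_zero]; exact g6⟩)).trans (num c1.2)
      refine le_of_eq_of_le (congrArg (err P.enc o _ _) (funext fun x => ?_) :
        err P.enc o _ _ (fun x => (1 - lam j x) * g x + lam j x * g' x) = _) this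
      simp only [lf, cond_true, cond_false]
      linear_combination P.hyp.ch2 (lam j x * g' x) - P.hyp.ch2 (lam j x * g x)
    · simp only [lam, hL', AddMonoidHom.comp_apply, Pi.evalAddMonoidHom_apply, ← hj, P.hyp.ch2,
        sub_zero, one_mul, zero_mul, add_zero, g3]

theorem cw_eq {W : P.Wd} {U : AddSubgroup P.Idx} {j : P.Idx} {g : P.X → P.E} (h : Ld P.y g)
    (e : err P.enc W U j g ≤ e3 P.y) : cw W U j = g := by
  have s := Classical.epsilon_spec (p := fun g => Ld P.y g ∧ err P.enc W U j g ≤ e3 P.y) ⟨g, h, e⟩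
  have y := y2 (P := P)
  refine P.hyp.ld.uniq (P.hyp.cE ▸ dd_le.2.2.1) s.1 h (lt_of_le_of_lt ?_ (b := e3 P.y + e3 P.y) ?_)
  · refine le_trans (le_of_eq ?_) ((ob_le_add (B := fun l => cw W U j l.2.1 ≠ g l.2.1)
      fun u _ z k => not_and_or.1 fun t => k (t.1.uniq t.2)).trans (add_le_add s.2 e))
    rw [ob, pr_snd fun z : P.X × P.X => cw W U j z.1 ≠ g z.1, pr_fst fun z => cw W U j z ≠ g z]
  · unfold e3
    have : (2 : ℝ) ^ 8 ≤ P.y ^ 8 := by gcongr
    rw [← add_div, div_lt_div_iff₀ (by positivity) (by positivity)]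
    nlinarith

end Tr

open Tr

theorem treeS (K : P.KitP) : P.TreeS := by
  intro A ro hA hr
  have := P.hr
  have := P.hyp.hy
  have := dd_le (P := P)
  refine ((lev K hA hr _ le_rfl).comp (pur K le_rfl)).mono ?_ ?_
  · have a : P.y ^ 131 ≤ P.y ^ 160 := Nat.pow_le_pow_right (by omega) (by norm_num)
    have b : (2 * P.L + 2) * P.y ^ 160 ≤ P.y ^ 2 * P.y ^ 160 :=
      Nat.mul_le_mul_right _ (by unfold L; nlinarith)
    rw [show P.y ^ 162 = P.y ^ 2 * P.y ^ 160 by ring]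
    nlinarith [Nat.mul_le_mul_left P.L a]
  rintro c x o F ⟨n, ⟨B, b1, b2⟩, hp⟩
  refine ⟨fun j => (pr_mono fun u hu => ⟨hu.1, fun ⟨g, g1, g2⟩ => hu.2 ⟨g, g1.mono (by omega),
    g2⟩⟩).trans (sus (by omega) hp (fun u : P.Uh => j + u)
      (fun ν => ⟨iN (Pi.single ⟨P.L, by omega⟩ ν), by simp [UT]⟩) fun _ _ => (add_assoc ..).symm),
    B, fun j => (b1 j).trans ?_, fun j h q hB hc hj he => ?_⟩
  · have y := y2 (P := P)
    have : (P.L : ℝ) ≤ P.y := by exact_mod_cast (by omega)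
    field_simp
    nlinarith
  · obtain ⟨g, g1, g2, g3⟩ := b2 j h q hB hc hj he
    have c0 := calm hc le_rfl (zero_mem _)
    rw [add_zero] at c0
    rw [cw_eq (g1.mono (by omega)) ((hp j c0.1).2 g g1 g2), g3, bit_ne]

end Pool.Agent.PP.Par
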